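import Pool.Agent.Work.RRAM.Auto

/-!
# Polynomial-time functions on lists of reals run on the real RAM
-/

set_option autoImplicit false

namespace Pool.Agent.RRAM

open Function

theorem enc_list_real (x : List ℝ) : (enc x).enc = inTok x := by
  induction x with
  | nil => rfl
  | cons a x ih =>
    rw [enc_cons, enc_real]
    show Tok.bit true :: ([Tok.real a] ++ (enc x).enc) = _
    rw [ih]
    rfl

theorem enc_bool_tok (b : Bool) : (enc b).enc = boolTok b := by
  cases b <;> rfl

theorem sz_list_real (x : List ℝ) : sz x = 2 * x.length + 1 := by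
  induction x with
  | nil => rfl
  | cons a x ih => rw [sz_cons, sz_real, ih, List.length_cons]; ring

/-- **Decision functions computable in polynomial time are decided by real RAM programs in
polynomial time.** -/
theorem PTF.answers {f : List ℝ → Bool} (h : PTF f) :
    ∃ (P : List Instr) (k : ℕ), ∀ x : List ℝ, Answers P x ((x.length + 2) ^ k) (f x) := by
  obtain ⟨B, ⟨g, T, ⟨K, _, _, p, i, o, hp⟩, hg, hT⟩, k, hk⟩ := h
  let N : K → ℕ := fun s => (Fintype.equivFin K s).val + 2
  have hN : Injective N := by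
    intro a b hab
    apply (Fintype.equivFin K).injective
    apply Fin.ext
    have : (Fintype.equivFin K a).val + 2 = (Fintype.equivFin K b).val + 2 := hab
    omega
  have hN2 : ∀ s, 2 ≤ N s := fun s => by
    show 2 ≤ (Fintype.equivFin K s).val + 2
    omega
  refine ⟨whole N p i o, 2 * k + 4, fun x => ?_⟩
  obtain ⟨t, ht, e⟩ := hp (enc x)
  rw [hg, enc_list_real, enc_bool_tok] at e
  obtain ⟨m, hm, ha⟩ := whole_answers N hN hN2 p i o x (f x) t e
  refine ⟨m, hm.trans ?_, ha⟩
  have h1 : t ≤ (2 * x.length + 3) ^ k := by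
    refine ht.trans ((hT x).trans ((hk x).trans ?_))
    rw [sz_list_real]
  set n := x.length + 2 with hn
  have h2 : (2 * x.length + 3) ^ k ≤ n ^ (2 * k) := by
    rw [pow_mul]
    apply Nat.pow_le_pow_left
    nlinarith
  have h3 : 1 ≤ n ^ (2 * k) := Nat.one_le_pow _ _ (by omega)
  have h4 : n ^ (2 * k + 4) = n ^ (2 * k) * n ^ 4 := pow_add _ _ _
  have h5 : 8 * n ≤ n ^ 4 := by
    have h6 : 8 ≤ n ^ 3 := by
      calc 8 = 2 ^ 3 := by norm_num
        _ ≤ n ^ 3 := Nat.pow_le_pow_left (by omega) 3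
    calc 8 * n ≤ n ^ 3 * n := Nat.mul_le_mul_right _ h6
      _ = n ^ 4 := by ring
  rw [h4]
  calc 8 * x.length + 8 * t + 8 ≤ n ^ (2 * k) * (8 * n) := by nlinarith
    _ ≤ n ^ (2 * k) * n ^ 4 := Nat.mul_le_mul_left _ h5

end Pool.Agent.RRAM
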