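import Mathlib

/-!
# A real RAM with stacks

The model of computation: a fixed finite list of instructions working on real registers and on
stacks of reals.  Every instruction costs one unit of time.  The arithmetic instructions are
addition, subtraction, multiplication and square root; the only test compares two registers.
A program mentions only finitely many registers and stacks.
-/

set_option autoImplicit false

namespace Pool.Agent.RRAM

/-- Instructions of the real RAM.  `r a b` are numbers of registers, `s` is the number of a
stack, `l` is the number of a line of the program. -/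
inductive Instr : Type
  /-- push the contents of register `r` on stack `s` -/
  | push (s r : ℕ) : Instr
  /-- if stack `s` is empty go to line `l`, otherwise pop its top into register `r` -/
  | pop (s r l : ℕ) : Instr
  /-- `r := 1` -/
  | one (r : ℕ) : Instr
  /-- `r := a + b` -/
  | add (r a b : ℕ) : Instr
  /-- `r := a - b` -/
  | sub (r a b : ℕ) : Instr
  /-- `r := a * b` -/
  | mul (r a b : ℕ) : Instr
  /-- `r := √a` (which is `0` if `a` is negative) -/
  | sqrt (r a : ℕ) : Instr
  /-- if `a < b` go to line `l` -/
  | jlt (a b l : ℕ) : Instr
  /-- stop and answer `b` -/
  | halt (b : Bool) : Instr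

/-- A configuration: current line, registers, stacks. -/
structure Cfg : Type where
  pc : ℕ
  reg : ℕ → ℝ
  stk : ℕ → List ℝ

/-- One step of the program `P`.  A halting instruction leaves the configuration unchanged. -/
noncomputable def step (P : List Instr) (c : Cfg) : Cfg :=
  match P[c.pc]? with
  | some (.push s r) => ⟨c.pc + 1, c.reg, Function.update c.stk s (c.reg r :: c.stk s)⟩
  | some (.pop s r l) =>
      match c.stk s with
      | [] => ⟨l, c.reg, c.stk⟩
      | x :: t => ⟨c.pc + 1, Function.update c.reg r x, Function.update c.stk s t⟩
  | some (.one r) => ⟨c.pc + 1, Function.update c.reg r 1, c.stk⟩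
  | some (.add r a b) => ⟨c.pc + 1, Function.update c.reg r (c.reg a + c.reg b), c.stk⟩
  | some (.sub r a b) => ⟨c.pc + 1, Function.update c.reg r (c.reg a - c.reg b), c.stk⟩
  | some (.mul r a b) => ⟨c.pc + 1, Function.update c.reg r (c.reg a * c.reg b), c.stk⟩
  | some (.sqrt r a) => ⟨c.pc + 1, Function.update c.reg r (Real.sqrt (c.reg a)), c.stk⟩
  | some (.jlt a b l) =>
      open Classical in if c.reg a < c.reg b then ⟨l, c.reg, c.stk⟩ else ⟨c.pc + 1, c.reg, c.stk⟩
  | some (.halt _) => c
  | none => c

/-- The initial configuration on the input `x`: line `0`, all registers `0`, the input on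
stack `0` with its first entry on top, all other stacks empty. -/
def init (x : List ℝ) : Cfg :=
  ⟨0, fun _ => 0, fun s => if s = 0 then x else []⟩

/-- After at most `T` steps on the input `x` the program `P` has stopped with the answer `b`. -/
def Answers (P : List Instr) (x : List ℝ) (T : ℕ) (b : Bool) : Prop :=
  ∃ t ≤ T, P[((step P)^[t] (init x)).pc]? = some (.halt b)

end Pool.Agent.RRAM
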