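import Pool.Agent.Work.RRAM.List

/-!
# Automation: `fun_prop` for polynomial-time functions

After importing this file `fun_prop` proves `PTF (fun a => ...)` for expressions built from the
operations of the library (compositional forms of the closure theorems).
-/

set_option autoImplicit false

namespace Pool.Agent.RRAM

open Function

variable {α β γ δ σ : Type} [Enc α] [Enc β] [Enc γ] [Enc δ] [Enc σ]

attribute [fun_prop] PTF
attribute [fun_prop] PTF.id PTF.const PTF.comp PTF.pair PTF.fst PTF.snd PTF.cons PTF.tail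
  PTF.some PTF.isEmpty PTF.succ PTF.pred PTF.reverse PTF.append PTF.length PTF.add PTF.sub
  PTF.mul PTF.mod PTF.div PTF.range PTF.flatten PTF.drop PTF.take PTF.head? PTF.get? PTF.sum
  PTF.replicate PTF.not PTF.and PTF.or PTF.eq PTF.le PTF.lt PTF.mem PTF.ite PTF.getD
  PTF.count PTF.idxOf PTF.headD PTF.optToList
  PTF.radd PTF.rsub PTF.rmul PTF.rsqrt PTF.rneg PTF.rlt PTF.rle

@[fun_prop]
theorem PTF.fst' {f : α → β × γ} (hf : PTF f) : PTF (fun a => (f a).1) := PTF.fst.comp hf

@[fun_prop]
theorem PTF.snd' {f : α → β × γ} (hf : PTF f) : PTF (fun a => (f a).2) := PTF.snd.comp hf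

@[fun_prop]
theorem PTF.map' {f : α → β → γ} {l : α → List β} (hf : PTF (fun p : α × β => f p.1 p.2))
    (hl : PTF l) : PTF (fun a => (l a).map (f a)) := PTF.map hl hf

@[fun_prop]
theorem PTF.flatMap' {f : α → β → List γ} {l : α → List β}
    (hf : PTF (fun p : α × β => f p.1 p.2)) (hl : PTF l) :
    PTF (fun a => (l a).flatMap (f a)) := PTF.flatMap hl hf

@[fun_prop]
theorem PTF.filter' {f : α → β → Bool} {l : α → List β}
    (hf : PTF (fun p : α × β => f p.1 p.2)) (hl : PTF l) :
    PTF (fun a => (l a).filter (f a)) := PTF.filter hl hf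

@[fun_prop]
theorem PTF.filterMap' {f : α → β → Option γ} {l : α → List β}
    (hf : PTF (fun p : α × β => f p.1 p.2)) (hl : PTF l) :
    PTF (fun a => (l a).filterMap (f a)) := PTF.filterMap hl hf

@[fun_prop]
theorem PTF.any' {f : α → β → Bool} {l : α → List β}
    (hf : PTF (fun p : α × β => f p.1 p.2)) (hl : PTF l) :
    PTF (fun a => (l a).any (f a)) := PTF.any hl hf

@[fun_prop]
theorem PTF.all' {f : α → β → Bool} {l : α → List β}
    (hf : PTF (fun p : α × β => f p.1 p.2)) (hl : PTF l) :
    PTF (fun a => (l a).all (f a)) := PTF.all hl hf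

@[fun_prop]
theorem PTF.decide_and {p q : α → Prop} [DecidablePred p] [DecidablePred q]
    (hp : PTF (fun a => decide (p a))) (hq : PTF (fun a => decide (q a))) :
    PTF (fun a => decide (p a ∧ q a)) :=
  (hp.and hq).congr (fun a => by by_cases h1 : p a <;> by_cases h2 : q a <;> simp [h1, h2])

@[fun_prop]
theorem PTF.decide_or {p q : α → Prop} [DecidablePred p] [DecidablePred q]
    (hp : PTF (fun a => decide (p a))) (hq : PTF (fun a => decide (q a))) :
    PTF (fun a => decide (p a ∨ q a)) :=
  (hp.or hq).congr (fun a => by by_cases h1 : p a <;> by_cases h2 : q a <;> simp [h1, h2])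

@[fun_prop]
theorem PTF.decide_not {p : α → Prop} [DecidablePred p]
    (hp : PTF (fun a => decide (p a))) : PTF (fun a => decide (¬ p a)) :=
  hp.not.congr (fun a => by by_cases h1 : p a <;> simp [h1])

@[fun_prop]
theorem PTF.decide_iff {p q : α → Prop} [DecidablePred p] [DecidablePred q]
    (hp : PTF (fun a => decide (p a))) (hq : PTF (fun a => decide (q a))) :
    PTF (fun a => decide (p a ↔ q a)) :=
  (hp.eq hq).congr (fun a => by by_cases h1 : p a <;> by_cases h2 : q a <;> simp [h1, h2])

@[fun_prop]
theorem PTF.ne [DecidableEq β] {f g : α → β} (hf : PTF f) (hg : PTF g) :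
    PTF (fun a => decide (f a ≠ g a)) := (hf.eq hg).decide_not

@[fun_prop]
theorem PTF.decide_imp {p q : α → Prop} [DecidablePred p] [DecidablePred q]
    (hp : PTF (fun a => decide (p a))) (hq : PTF (fun a => decide (q a))) :
    PTF (fun a => decide (p a → q a)) :=
  (hp.not.or hq).congr (fun a => by by_cases h1 : p a <;> by_cases h2 : q a <;> simp [h1, h2])

@[fun_prop]
theorem PTF.cond' {c : α → Bool} {f g : α → β} (hc : PTF c) (hf : PTF f) (hg : PTF g) :
    PTF (fun a => bif c a then f a else g a) :=
  (hc.cond hf hg).congr (fun a => by cases c a <;> rfl)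

@[fun_prop]
theorem PTF.beq [DecidableEq β] {f g : α → β} (hf : PTF f) (hg : PTF g) :
    PTF (fun a => f a == g a) := (hf.eq hg).congr (fun a => by
      rw [Bool.eq_iff_iff]; simp)

@[fun_prop]
theorem PTF.min' {m n : α → ℕ} (hm : PTF m) (hn : PTF n) : PTF (fun a => Min.min (m a) (n a)) :=
  PTF.min hm hn

@[fun_prop]
theorem PTF.max' {m n : α → ℕ} (hm : PTF m) (hn : PTF n) : PTF (fun a => Max.max (m a) (n a)) :=
  PTF.max hm hn

@[fun_prop]
theorem PTF.pow_const {m : α → ℕ} (hm : PTF m) (k : ℕ) : PTF (fun a => m a ^ k) := by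
  induction k with
  | zero => exact (PTF.const 1).congr (fun a => by simp)
  | succ k ih => exact (ih.mul hm).congr (fun a => (pow_succ _ _).symm)

@[fun_prop]
theorem PTF.product {l : α → List β} {m : α → List γ} (hl : PTF l) (hm : PTF m) :
    PTF (fun a => List.product (l a) (m a)) := by
  unfold List.product
  fun_prop

@[fun_prop]
theorem PTF.optionMap' {f : α → β → γ} {o : α → Option β}
    (hf : PTF (fun p : α × β => f p.1 p.2)) (ho : PTF o) :
    PTF (fun a => (o a).map (f a)) :=
  (PTF.option_case ho (PTF.const none) hf.some).congr (fun a => by cases o a <;> rfl)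

@[fun_prop]
theorem PTF.optionGetD {o : α → Option β} {d : α → β} (ho : PTF o) (hd : PTF d) :
    PTF (fun a => (o a).getD (d a)) :=
  (PTF.option_case ho hd (g := fun p : α × β => p.2) PTF.snd).congr
    (fun a => by cases o a <;> rfl)

@[fun_prop]
theorem PTF.optionBind' {f : α → β → Option γ} {o : α → Option β}
    (hf : PTF (fun p : α × β => f p.1 p.2)) (ho : PTF o) :
    PTF (fun a => (o a).bind (f a)) :=
  (PTF.option_case ho (PTF.const none) hf).congr (fun a => by cases o a <;> rfl)

@[fun_prop]
theorem PTF.optionIsSome {o : α → Option β} (ho : PTF o) : PTF (fun a => (o a).isSome) :=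
  (PTF.option_case ho (PTF.const false) (g := fun _ : α × β => true) (PTF.const true)).congr
    (fun a => by cases o a <;> rfl)

@[fun_prop]
theorem PTF.find' {f : α → β → Bool} {l : α → List β}
    (hf : PTF (fun p : α × β => f p.1 p.2)) (hl : PTF l) :
    PTF (fun a => (l a).find? (f a)) :=
  ((PTF.filter hl hf).head?).congr (fun a => by simp [List.head?_filter])

@[fun_prop]
theorem PTF.rpow_const {f : α → ℝ} (hf : PTF f) (k : ℕ) : PTF (fun a => f a ^ k) := by
  induction k with
  | zero => exact (PTF.const 1).congr (fun a => by simp)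
  | succ k ih => exact (ih.rmul hf).congr (fun a => (pow_succ _ _).symm)

example : PTF (fun p : List ℝ × ℝ => p.1.map (fun x => Real.sqrt (x + p.2) * 2)) := by fun_prop

example : PTF (fun p : List ℝ × ℕ => p.1.filter (fun x => decide (x < p.1.getD p.2 0))) := by
  fun_prop

example : PTF (fun p : List ℝ => if p = [] then ((0 : ℝ), ([] : List ℝ)) else (1, p)) := by
  fun_prop

end Pool.Agent.RRAM
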