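import Pool.Agent.Work.RRAM.Sim

/-!
# Basic closure properties of the stack programs
-/

set_option autoImplicit false

namespace Pool.Agent.RRAM

open Function

section general

variable {K K' : Type} [DecidableEq K] [DecidableEq K']

/-- Renaming of the stacks of a program. -/
def Prog.map {K K' : Type} (j : K → K') : Prog K → Prog K'
  | .skip => .skip
  | .push k b => .push (j k) b
  | .one k => .one (j k)
  | .op o k => .op o (j k)
  | .seq p q => .seq (p.map j) (q.map j)
  | .case k ks pn pf pt pr => .case (j k) (ks.map j) (pn.map j) (pf.map j) (pt.map j) (pr.map j)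
  | .loop k ks pf pt pr => .loop (j k) (ks.map j) (pf.map j) (pt.map j) (pr.map j)

open Classical in
/-- Insert a memory on the range of an injection. -/
noncomputable def ins {K K' : Type} (j : K → K') (S : Mem K) (U : Mem K') : Mem K' :=
  fun k' => if h : ∃ k, j k = k' then S h.choose else U k'

omit [DecidableEq K] [DecidableEq K'] in
theorem ins_apply {j : K → K'} (hj : Injective j) (S : Mem K) (U : Mem K') (k : K) :
    ins j S U (j k) = S k := by
  unfold ins
  have h : ∃ k1, j k1 = j k := ⟨k, rfl⟩
  rw [dif_pos h]
  exact congrArg S (hj h.choose_spec)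

theorem ins_update {j : K → K'} (hj : Injective j) (S : Mem K) (U : Mem K') (k : K)
    (v : List Tok) : update (ins j S U) (j k) v = ins j (update S k v) U := by
  funext k'
  by_cases h : ∃ k1, j k1 = k'
  · obtain ⟨k1, rfl⟩ := h
    rw [ins_apply hj]
    by_cases h2 : k1 = k
    · subst h2; simp
    · rw [update_of_ne (fun h => h2 (hj h)), ins_apply hj, update_of_ne h2]
  · have h2 : k' ≠ j k := fun e => h ⟨k, e.symm⟩
    rw [update_of_ne h2]
    unfold ins
    rw [dif_neg h, dif_neg h]

theorem ins_pushTo {j : K → K'} (hj : Injective j) (x : ℝ) (ks : List K) : ∀ (S : Mem K)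
    (U : Mem K'), pushTo x (ks.map j) (ins j S U) = ins j (pushTo x ks S) U := by
  induction ks with
  | nil => intro S U; rfl
  | cons k ks ih =>
    intro S U
    simp only [List.map_cons, pushTo]
    rw [ins_apply hj, ins_update hj, ih]

theorem Exec.map {j : K → K'} (hj : Injective j) {p : Prog K} {S S' : Mem K} {t : ℕ}
    (h : Exec p S S' t) (U : Mem K') : Exec (p.map j) (ins j S U) (ins j S' U) t := by
  induction h with
  | skip S => exact .skip _
  | push k b S =>
    have := Exec.push (j k) b (ins j S U)
    rw [ins_apply hj, ins_update hj] at this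
    exact this
  | one k S =>
    have := Exec.one (j k) (ins j S U)
    rw [ins_apply hj, ins_update hj] at this
    exact this
  | op o k S x y l hk =>
    have := Exec.op o (j k) (ins j S U) x y l (by rw [ins_apply hj]; exact hk)
    rw [ins_update hj] at this
    exact this
  | seq _ _ ih1 ih2 => exact .seq ih1 ih2
  | @case_nil k ks pn pf pt pr S S' t hk _ ih =>
    exact .case_nil (by rw [ins_apply hj]; exact hk) ih
  | @case_bit k ks pn pf pt pr S S' t b l hk _ ih =>
    refine .case_bit b l (by rw [ins_apply hj]; exact hk) ?_
    rw [ins_update hj]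
    cases b <;> exact ih
  | @case_real k ks pn pf pt pr S S' t x l hk _ ih =>
    have := Exec.case_real (ks := ks.map j) (pn := pn.map j) (pf := pf.map j) (pt := pt.map j)
      (pr := pr.map j) (k := j k) (S := ins j S U) (S' := ins j S' U) x l
      (by rw [ins_apply hj]; exact hk) (by rw [ins_update hj, ins_pushTo hj]; exact ih)
    rw [List.length_map] at this
    exact this
  | @loop_nil k ks pf pt pr S hk =>
    exact .loop_nil (by rw [ins_apply hj]; exact hk)
  | @loop_bit k ks pf pt pr S S' S'' t t' b l hk _ _ ih1 ih2 =>
    refine .loop_bit b l (by rw [ins_apply hj]; exact hk) ?_ ih2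
    rw [ins_update hj]
    cases b <;> exact ih1
  | @loop_real k ks pf pt pr S S' S'' t t' x l hk _ _ ih1 ih2 =>
    have := Exec.loop_real (ks := ks.map j) (pf := pf.map j) (pt := pt.map j)
      (pr := pr.map j) (k := j k) (S := ins j S U) (S' := ins j S' U) (S'' := ins j S'' U) x l
      (by rw [ins_apply hj]; exact hk) (by rw [ins_update hj, ins_pushTo hj]; exact ih1) ih2
    rw [List.length_map] at this
    exact this

theorem length_update_cons (S : Mem K) (k k' : K) (c : Tok) :
    (update S k' (c :: S k') k).length ≤ (S k).length + 1 := by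
  by_cases h : k = k'
  · subst h; simp
  · rw [update_of_ne h]; omega

theorem length_update_tail (S : Mem K) (k k' : K) (c : Tok) (l : List Tok) (h : S k' = c :: l) :
    (update S k' l k).length ≤ (S k).length := by
  by_cases hk : k = k'
  · subst hk; rw [h]; simp
  · rw [update_of_ne hk]

theorem length_pushTo (x : ℝ) (ks : List K) (k : K) : ∀ S : Mem K,
    (pushTo x ks S k).length ≤ (S k).length + ks.length := by
  induction ks with
  | nil => intro S; exact le_refl _
  | cons k' ks ih =>
    intro S
    have h1 := ih (update S k' (.real x :: S k'))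
    have h2 := length_update_cons S k k' (.real x)
    simp only [pushTo, List.length_cons]
    omega

theorem Exec.length_le {p : Prog K} {S S' : Mem K} {t : ℕ} (h : Exec p S S' t) (k : K) :
    (S' k).length ≤ (S k).length + t := by
  induction h with
  | skip S => omega
  | push k' b S => exact length_update_cons S k k' _
  | one k' S => exact length_update_cons S k k' _
  | op o k' S x y l hk =>
    by_cases h : k = k'
    · subst h; rw [hk]; simp
    · rw [update_of_ne h]; omega
  | seq _ _ ih1 ih2 => omega
  | @case_nil k' ks pn pf pt pr S S' t hk _ ih => omega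
  | @case_bit k' ks pn pf pt pr S S' t b l hk _ ih =>
    have := length_update_tail S k k' _ l hk
    omega
  | @case_real k' ks pn pf pt pr S S' t x l hk _ ih =>
    have := length_update_tail S k k' _ l hk
    have := length_pushTo x ks k (update S k' l)
    omega
  | @loop_nil k' ks pf pt pr S hk => omega
  | @loop_bit k' ks pf pt pr S S' S'' t t' b l hk _ _ ih1 ih2 =>
    have := length_update_tail S k k' _ l hk
    omega
  | @loop_real k' ks pf pt pr S S' S'' t t' x l hk _ _ ih1 ih2 =>
    have := length_update_tail S k k' _ l hk
    have := length_pushTo x ks k (update S k' l)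
    omega

/-- `p` transforms `S` to `S'` within `T` units of time. -/
def Runs (p : Prog K) (S S' : Mem K) (T : ℕ) : Prop := ∃ t, t ≤ T ∧ Exec p S S' t

theorem Runs.seq {p q : Prog K} {S S' S'' : Mem K} {T T' : ℕ}
    (h1 : Runs p S S' T) (h2 : Runs q S' S'' T') : Runs (.seq p q) S S'' (T + T') := by
  obtain ⟨t1, ht1, e1⟩ := h1
  obtain ⟨t2, ht2, e2⟩ := h2
  exact ⟨t1 + t2, by omega, e1.seq e2⟩

theorem Runs.mono {p : Prog K} {S S' : Mem K} {T T' : ℕ}
    (h1 : Runs p S S' T) (h : T ≤ T') : Runs p S S' T' := by
  obtain ⟨t1, ht1, e1⟩ := h1
  exact ⟨t1, by omega, e1⟩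

theorem Runs.skip (S : Mem K) : Runs .skip S S 0 := ⟨0, le_refl _, .skip S⟩

theorem Runs.push (k : K) (b : Bool) (S : Mem K) :
    Runs (.push k b) S (update S k (.bit b :: S k)) 1 := ⟨1, le_refl _, .push k b S⟩

theorem Runs.one (k : K) (S : Mem K) :
    Runs (.one k) S (update S k (.real 1 :: S k)) 1 := ⟨1, le_refl _, .one k S⟩

theorem Runs.op (o : Op) (k : K) (S : Mem K) (x y : ℝ) (l : List Tok)
    (h : S k = .real x :: .real y :: l) :
    Runs (.op o k) S (update S k (o.val x y :: l)) 1 := ⟨1, le_refl _, .op o k S x y l h⟩

theorem Runs.map {j : K → K'} (hj : Injective j) {p : Prog K} {S S' : Mem K} {T : ℕ}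
    (h : Runs p S S' T) (U : Mem K') : Runs (p.map j) (ins j S U) (ins j S' U) T := by
  obtain ⟨t, ht, e⟩ := h
  exact ⟨t, ht, e.map hj U⟩

theorem Runs.case_nil {k : K} {ks : List K} {pn pf pt pr : Prog K} {S S' : Mem K} {T : ℕ}
    (hk : S k = []) (h : Runs pn S S' T) : Runs (.case k ks pn pf pt pr) S S' (T + 1) := by
  obtain ⟨t, ht, e⟩ := h
  exact ⟨t + 1, by omega, .case_nil hk e⟩

theorem Runs.case_false {k : K} {ks : List K} {pn pf pt pr : Prog K} {S S' : Mem K} {T : ℕ}
    (l : List Tok) (hk : S k = .bit false :: l) (h : Runs pf (update S k l) S' T) :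
    Runs (.case k ks pn pf pt pr) S S' (T + 1) := by
  obtain ⟨t, ht, e⟩ := h
  exact ⟨t + 1, by omega, .case_bit false l hk e⟩

theorem Runs.case_true {k : K} {ks : List K} {pn pf pt pr : Prog K} {S S' : Mem K} {T : ℕ}
    (l : List Tok) (hk : S k = .bit true :: l) (h : Runs pt (update S k l) S' T) :
    Runs (.case k ks pn pf pt pr) S S' (T + 1) := by
  obtain ⟨t, ht, e⟩ := h
  exact ⟨t + 1, by omega, .case_bit true l hk e⟩

theorem Runs.case_real {k : K} {ks : List K} {pn pf pt pr : Prog K} {S S' : Mem K} {T : ℕ}
    (x : ℝ) (l : List Tok) (hk : S k = .real x :: l)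
    (h : Runs pr (pushTo x ks (update S k l)) S' T) :
    Runs (.case k ks pn pf pt pr) S S' (T + 1 + ks.length) := by
  obtain ⟨t, ht, e⟩ := h
  exact ⟨t + 1 + ks.length, by omega, .case_real x l hk e⟩

theorem Runs.loop_nil {k : K} {ks : List K} {pf pt pr : Prog K} {S : Mem K}
    (hk : S k = []) : Runs (.loop k ks pf pt pr) S S 1 := ⟨1, le_refl _, .loop_nil hk⟩

theorem Runs.loop_false {k : K} {ks : List K} {pf pt pr : Prog K} {S S' S'' : Mem K} {T T' : ℕ}
    (l : List Tok) (hk : S k = .bit false :: l) (h : Runs pf (update S k l) S' T)
    (h2 : Runs (.loop k ks pf pt pr) S' S'' T') :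
    Runs (.loop k ks pf pt pr) S S'' (T + T' + 1) := by
  obtain ⟨t, ht, e⟩ := h
  obtain ⟨t', ht', e'⟩ := h2
  exact ⟨t + t' + 1, by omega, .loop_bit false l hk e e'⟩

theorem Runs.loop_true {k : K} {ks : List K} {pf pt pr : Prog K} {S S' S'' : Mem K} {T T' : ℕ}
    (l : List Tok) (hk : S k = .bit true :: l) (h : Runs pt (update S k l) S' T)
    (h2 : Runs (.loop k ks pf pt pr) S' S'' T') :
    Runs (.loop k ks pf pt pr) S S'' (T + T' + 1) := by
  obtain ⟨t, ht, e⟩ := h
  obtain ⟨t', ht', e'⟩ := h2
  exact ⟨t + t' + 1, by omega, .loop_bit true l hk e e'⟩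

theorem Runs.loop_real {k : K} {ks : List K} {pf pt pr : Prog K} {S S' S'' : Mem K} {T T' : ℕ}
    (x : ℝ) (l : List Tok) (hk : S k = .real x :: l)
    (h : Runs pr (pushTo x ks (update S k l)) S' T)
    (h2 : Runs (.loop k ks pf pt pr) S' S'' T') :
    Runs (.loop k ks pf pt pr) S S'' (T + T' + 1 + ks.length) := by
  obtain ⟨t, ht, e⟩ := h
  obtain ⟨t', ht', e'⟩ := h2
  exact ⟨t + t' + 1 + ks.length, by omega, .loop_real x l hk e e'⟩

/-- Calling a subroutine whose private stacks are empty. -/
theorem Runs.call {j : K → K'} (hj : Injective j) {p : Prog K} {i o : K} {x y : List Tok}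
    {T : ℕ} (h : Runs p (single i x) (single o y) T) (U : Mem K') (hU : ∀ k, U (j k) = []) :
    Runs (p.map j) (update U (j i) x) (update U (j o) y) T := by
  have h1 := h.map hj U
  have h0 : ins j (fun _ => []) U = U := by
    funext k'
    by_cases h : ∃ k, j k = k'
    · obtain ⟨k, rfl⟩ := h
      rw [ins_apply hj, hU]
    · unfold ins
      rw [dif_neg h]
  have e1 : ins j (single i x) U = update U (j i) x := by
    unfold single; rw [← ins_update hj, h0]
  have e2 : ins j (single o y) U = update U (j o) y := by
    unfold single; rw [← ins_update hj, h0]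
  rw [e1, e2] at h1
  exact h1

theorem update_nil_of {U : Mem K} {k : K} (h : U k = []) : update U k [] = U := by
  funext k'
  by_cases hk : k' = k
  · rw [hk, update_self, h]
  · rw [update_of_ne hk]

/-- Move the contents of `a` to `b`, reversing it. -/
def mv {K : Type} (a b : K) : Prog K := .loop a [b] (.push b false) (.push b true) .skip

theorem mv_runs {a b : K} (hab : a ≠ b) (S : Mem K) :
    Runs (mv a b) S (update (update S a []) b ((S a).reverse ++ S b)) (2 * (S a).length + 1) := by
  generalize hl : S a = l
  induction l generalizing S with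
  | nil =>
    have : update (update S a []) b (([] : List Tok).reverse ++ S b) = S := by
      rw [← hl, update_eq_self]
      have : S a = [] := hl
      rw [this]
      simp
    rw [this]
    exact (Runs.loop_nil hl)
  | cons c l ih =>
    have h2 := ih (update (update S a l) b (c :: S b)) (by
      rw [update_of_ne hab, update_self])
    have e : update (update (update (update S a l) b (c :: S b)) a []) b
        (l.reverse ++ update (update S a l) b (c :: S b) b) =
        update (update S a []) b ((c :: l).reverse ++ S b) := by
      funext k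
      by_cases hk : k = b
      · subst hk; simp
      · by_cases hk2 : k = a
        · subst hk2; simp [update_of_ne hk]
        · simp [update_of_ne hk, update_of_ne hk2]
    rw [e] at h2
    cases c with
    | bit v =>
      have h1 : Runs (.push b v) (update S a l) (update (update S a l) b (.bit v :: S b)) 1 := by
        have := Runs.push b v (update S a l)
        rw [update_of_ne hab.symm] at this
        exact this
      cases v with
      | true => exact (Runs.loop_true l hl h1 h2).mono (by simp; omega)
      | false => exact (Runs.loop_false l hl h1 h2).mono (by simp; omega)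
    | real x =>
      have h1 : Runs .skip (pushTo x [b] (update S a l))
          (update (update S a l) b (.real x :: S b)) 0 := by
        have := Runs.skip (pushTo x [b] (update S a l))
        simp only [pushTo] at this ⊢
        rw [update_of_ne hab.symm] at this ⊢
        exact this
      exact (Runs.loop_real x l hl h1 h2).mono (by simp; omega)

/-- `r := f(r)` by calling a subroutine; `d` is a temporary register. -/
def callP (r d : K') (j : K → K') (p : Prog K) (i o : K) : Prog K' :=
  .seq (mv r d) (.seq (mv d (j i)) (.seq (p.map j) (.seq (mv (j o) d) (mv d r))))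

theorem callP_runs {r d : K'} {j : K → K'} (hj : Injective j) (hrd : r ≠ d)
    (hr : ∀ k, r ≠ j k) (hd : ∀ k, d ≠ j k) {p : Prog K} {i o : K} {x y : List Tok}
    {T : ℕ} (h : Runs p (single i x) (single o y) T) (U : Mem K') (hU : ∀ k, U (j k) = [])
    (hUd : U d = []) (hUr : U r = x) :
    Runs (callP r d j p i o) U (update U r y) (T + 4 * x.length + 4 * y.length + 4) := by
  have h1 := mv_runs hrd U
  rw [hUr, hUd, List.append_nil] at h1
  have h2 := mv_runs (hd i) (update (update U r []) d x.reverse)
  have e2 : update (update (update (update U r []) d x.reverse) d []) (j i)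
      ((update (update U r []) d x.reverse d).reverse ++
        update (update U r []) d x.reverse (j i)) =
      update (update U r []) (j i) x := by
    rw [update_self, update_of_ne (hd i).symm, update_of_ne (hr i).symm, hU, update_idem,
      List.reverse_reverse, List.append_nil]
    rw [update_nil_of (k := d) (by rw [update_of_ne hrd.symm, hUd])]
  rw [e2, update_self, List.length_reverse] at h2
  have hU' : ∀ k, update U r [] (j k) = [] := by
    intro k; rw [update_of_ne (hr k).symm, hU]
  have h3 := h.call hj (update U r []) hU'
  have h4 := mv_runs (hd o).symm (update (update U r []) (j o) y)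
  have e4 : update (update (update (update U r []) (j o) y) (j o) []) d
      ((update (update U r []) (j o) y (j o)).reverse ++
        update (update U r []) (j o) y d) =
      update (update U r []) d y.reverse := by
    rw [update_self, update_of_ne (hd o), update_of_ne hrd.symm, hUd, update_idem,
      List.append_nil]
    rw [update_nil_of (k := j o) (hU' o)]
  rw [e4, update_self] at h4
  have h5 := mv_runs hrd.symm (update (update U r []) d y.reverse)
  have e5 : update (update (update (update U r []) d y.reverse) d []) r
      ((update (update U r []) d y.reverse d).reverse ++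
        update (update U r []) d y.reverse r) =
      update U r y := by
    rw [update_self, update_of_ne hrd, update_self, update_idem, List.reverse_reverse,
      List.append_nil]
    rw [update_nil_of (k := d) (by rw [update_of_ne hrd.symm, hUd]), update_idem]
  rw [e5, update_self, List.length_reverse] at h5
  exact (h1.seq (h2.seq (h3.seq (h4.seq h5)))).mono (by omega)

end general

end Pool.Agent.RRAM
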