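import Pool.Agent.Work.RRAM.Tree

/-!
# Functions on trees computed by stack programs, with time bounds
-/

set_option autoImplicit false

namespace Pool.Agent.RRAM

open Function

/-- `CompT f T`: some stack program computes `f` on (codes of) trees in time `T`. -/
def CompT (f : D → D) (T : D → ℕ) : Prop :=
  ∃ (K : Type) (_ : Fintype K) (_ : DecidableEq K) (p : Prog K) (i o : K),
    ∀ x : D, Runs p (single i x.enc) (single o (f x).enc) (T x)

theorem CompT.mono {f : D → D} {T T' : D → ℕ} (h : CompT f T) (hT : ∀ x, T x ≤ T' x) :
    CompT f T' := by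
  obtain ⟨K, i1, i2, p, i, o, h⟩ := h
  exact ⟨K, i1, i2, p, i, o, fun x => (h x).mono (hT x)⟩

theorem CompT.size_le {f : D → D} {T : D → ℕ} (h : CompT f T) (x : D) :
    (f x).size ≤ x.size + T x := by
  obtain ⟨K, i1, i2, p, i, o, h⟩ := h
  obtain ⟨t, ht, e⟩ := h x
  have h1 := e.length_le o
  unfold single at h1
  rw [update_self, D.length_enc] at h1
  have h2 : (update (fun _ => []) i x.enc o : List Tok).length ≤ x.size := by
    by_cases ho : o = i
    · subst ho; rw [update_self, D.length_enc]
    · rw [update_of_ne ho]; simp
  omega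

section mem

variable {K : Type} [DecidableEq K]

/-- Memory with four registers and other empty stacks. -/
def mem (K : Type) (x y z w : List Tok) : Mem (R ⊕ K) := Sum.elim (st x y z w) (fun _ => [])

omit [DecidableEq K] in
@[simp] theorem mem_inr (x y z w) (k : K) : mem K x y z w (Sum.inr k) = [] := rfl
omit [DecidableEq K] in
theorem mem_a (x y z w) : mem K x y z w (Sum.inl .a) = x := rfl
omit [DecidableEq K] in
theorem mem_b (x y z w) : mem K x y z w (Sum.inl .b) = y := rfl
omit [DecidableEq K] in
theorem mem_c (x y z w) : mem K x y z w (Sum.inl .c) = z := rfl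
omit [DecidableEq K] in
theorem mem_d (x y z w) : mem K x y z w (Sum.inl .d) = w := rfl

theorem upm_a (x y z w v) : update (mem K x y z w) (Sum.inl .a) v = mem K v y z w := by
  unfold mem; rw [Sum.update_elim_inl, up_a]
theorem upm_b (x y z w v) : update (mem K x y z w) (Sum.inl .b) v = mem K x v z w := by
  unfold mem; rw [Sum.update_elim_inl, up_b]
theorem upm_c (x y z w v) : update (mem K x y z w) (Sum.inl .c) v = mem K x y v w := by
  unfold mem; rw [Sum.update_elim_inl, up_c]
theorem upm_d (x y z w v) : update (mem K x y z w) (Sum.inl .d) v = mem K x y z v := by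
  unfold mem; rw [Sum.update_elim_inl, up_d]

theorem single_inl (i : R) (x : List Tok) :
    single (Sum.inl i : R ⊕ K) x = Sum.elim (single i x) (fun _ => []) := by
  unfold single
  rw [← Sum.update_elim_inl]
  congr 1
  funext k
  cases k <;> rfl

theorem single_ma (x) : single (Sum.inl R.a : R ⊕ K) x = mem K x [] [] [] := by
  rw [single_inl, single_a]; rfl
theorem single_mb (x) : single (Sum.inl R.b : R ⊕ K) x = mem K [] x [] [] := by
  rw [single_inl, single_b]; rfl
theorem single_mc (x) : single (Sum.inl R.c : R ⊕ K) x = mem K [] [] x [] := by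
  rw [single_inl, single_c]; rfl

omit [DecidableEq K] in
theorem ins_inl (S : Mem R) (x y z w : List Tok) :
    ins Sum.inl S (mem K x y z w) = Sum.elim S (fun _ => []) := by
  funext k
  cases k with
  | inl r => exact ins_apply Sum.inl_injective S _ r
  | inr k =>
    unfold ins
    rw [dif_neg]
    · rfl
    · rintro ⟨r, hr⟩; cases hr

/-- Run a register program inside the bigger memory. -/
theorem Runs.reg {p : Prog R} {x y z w x' y' z' w' : List Tok} {T : ℕ}
    (h : Runs p (st x y z w) (st x' y' z' w') T) :
    Runs (p.map Sum.inl) (mem K x y z w) (mem K x' y' z' w') T := by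
  have := h.map (K' := R ⊕ K) Sum.inl_injective (mem K x y z w)
  rw [ins_inl, ins_inl] at this
  exact this

/-- Call a subroutine on register `a`, with temporary `d`. -/
def callA {K1 : Type} (j : K1 → K) (p : Prog K1) (i o : K1) : Prog (R ⊕ K) :=
  callP (Sum.inl .a) (Sum.inl .d) (fun k => Sum.inr (j k)) p i o

/-- Call a subroutine on register `b`, with temporary `d`. -/
def callB {K1 : Type} (j : K1 → K) (p : Prog K1) (i o : K1) : Prog (R ⊕ K) :=
  callP (Sum.inl .b) (Sum.inl .d) (fun k => Sum.inr (j k)) p i o

theorem callA_runs {K1 : Type} [DecidableEq K1] {j : K1 → K} (hj : Injective j) {p : Prog K1}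
    {i o : K1} {u v : D} {T : ℕ} (h : Runs p (single i u.enc) (single o v.enc) T)
    (y z : List Tok) :
    Runs (callA j p i o) (mem K u.enc y z []) (mem K v.enc y z [])
      (T + 4 * u.size + 4 * v.size + 4) := by
  have := callP_runs (K' := R ⊕ K) (r := Sum.inl .a) (d := Sum.inl .d)
    (j := fun k => Sum.inr (j k)) (fun a b h => hj (Sum.inr.inj h)) (by simp) (by simp)
    (by simp) h (mem K u.enc y z []) (by simp) rfl rfl
  rw [upm_a, D.length_enc, D.length_enc] at this
  exact this

theorem callB_runs {K1 : Type} [DecidableEq K1] {j : K1 → K} (hj : Injective j) {p : Prog K1}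
    {i o : K1} {u v : D} {T : ℕ} (h : Runs p (single i u.enc) (single o v.enc) T)
    (x z : List Tok) :
    Runs (callB j p i o) (mem K x u.enc z []) (mem K x v.enc z [])
      (T + 4 * u.size + 4 * v.size + 4) := by
  have := callP_runs (K' := R ⊕ K) (r := Sum.inl .b) (d := Sum.inl .d)
    (j := fun k => Sum.inr (j k)) (fun a b h => hj (Sum.inr.inj h)) (by simp) (by simp)
    (by simp) h (mem K x u.enc z []) (by simp) rfl rfl
  rw [upm_b, D.length_enc, D.length_enc] at this
  exact this

end mem

/-- The identity. -/
theorem CompT.id : CompT (fun x => x) (fun _ => 0) :=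
  ⟨Unit, inferInstance, inferInstance, .skip, (), (), fun _ => Runs.skip _⟩

/-- Composition. -/
theorem CompT.comp {f g : D → D} {Tf Tg : D → ℕ} (hf : CompT f Tf) (hg : CompT g Tg) :
    CompT (fun x => f (g x))
      (fun x => Tg x + Tf (g x) + 4 * x.size + 8 * (g x).size + 4 * (f (g x)).size + 8) := by
  obtain ⟨K1, _, _, p1, i1, o1, h1⟩ := hf
  obtain ⟨K2, _, _, p2, i2, o2, h2⟩ := hg
  refine ⟨R ⊕ (K1 ⊕ K2), inferInstance, inferInstance,
    .seq (callA Sum.inr p2 i2 o2) (callA Sum.inl p1 i1 o1), Sum.inl .a, Sum.inl .a, fun x => ?_⟩
  beta_reduce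
  rw [single_ma, single_ma]
  exact ((callA_runs Sum.inr_injective (h2 x) [] []).seq
    (callA_runs Sum.inl_injective (h1 (g x)) [] [])).mono (by omega)

/-- Pairing. -/
theorem CompT.pair {f g : D → D} {Tf Tg : D → ℕ} (hf : CompT f Tf) (hg : CompT g Tg) :
    CompT (fun x => .cons (f x) (g x))
      (fun x => Tf x + Tg x + 13 * x.size + 8 * (f x).size + 8 * (g x).size + 15) := by
  obtain ⟨K1, _, _, p1, i1, o1, h1⟩ := hf
  obtain ⟨K2, _, _, p2, i2, o2, h2⟩ := hg
  refine ⟨R ⊕ (K1 ⊕ K2), inferInstance, inferInstance,
    .seq (copyAB.map Sum.inl) (.seq (callA Sum.inl p1 i1 o1) (.seq (callB Sum.inr p2 i2 o2)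
      (consP.map Sum.inl))), Sum.inl .a, Sum.inl .c, fun x => ?_⟩
  beta_reduce
  rw [single_ma, single_mc]
  have c1 := (copyAB_runs x.enc [] []).reg (K := K1 ⊕ K2)
  rw [List.append_nil, D.length_enc] at c1
  have c2 := callA_runs (K := K1 ⊕ K2) Sum.inl_injective (h1 x) x.enc []
  have c3 := callB_runs (K := K1 ⊕ K2) Sum.inr_injective (h2 x) (f x).enc []
  have c4 := (consP_runs (f x).enc (g x).enc).reg (K := K1 ⊕ K2)
  rw [D.length_enc, D.length_enc] at c4
  exact (c1.seq (c2.seq (c3.seq c4))).mono (by omega)

/-- Real numbers which can be produced by a program. -/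
def RConst (r : ℝ) : Prop :=
  ∃ (q : Prog Unit) (t : ℕ), ∀ S : Mem Unit, Runs q S (update S () (.real r :: S ())) t

theorem RConst.one : RConst 1 := ⟨.one (), 1, fun S => Runs.one () S⟩

theorem RConst.of_op {r s v : ℝ} (o : Op) (hr : RConst r) (hs : RConst s)
    (hv : o.val r s = .real v) : RConst v := by
  obtain ⟨q1, t1, h1⟩ := hr
  obtain ⟨q2, t2, h2⟩ := hs
  refine ⟨.seq q2 (.seq q1 (.op o ())), t2 + (t1 + 1), fun S => ?_⟩
  have e1 := h2 S
  have e2 := h1 (update S () (.real s :: S ()))
  rw [update_self, update_idem] at e2
  have e3 := Runs.op o () (update S () (.real r :: .real s :: S ())) r s (S ()) (update_self _ _ _)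
  rw [update_idem, hv] at e3
  exact e1.seq (e2.seq e3)

theorem RConst.add {r s : ℝ} (hr : RConst r) (hs : RConst s) : RConst (r + s) :=
  hr.of_op .add hs rfl

theorem RConst.sub {r s : ℝ} (hr : RConst r) (hs : RConst s) : RConst (r - s) :=
  hr.of_op .sub hs rfl

theorem RConst.mul {r s : ℝ} (hr : RConst r) (hs : RConst s) : RConst (r * s) :=
  hr.of_op .mul hs rfl

theorem RConst.sqrt {r : ℝ} (hr : RConst r) : RConst (Real.sqrt r) :=
  hr.of_op .sqrt hr rfl

theorem RConst.zero : RConst 0 := by
  have := RConst.one.sub RConst.one
  rwa [sub_self] at this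

theorem RConst.natCast (n : ℕ) : RConst n := by
  induction n with
  | zero => rw [Nat.cast_zero]; exact RConst.zero
  | succ n ih => rw [Nat.cast_succ]; exact ih.add RConst.one

/-- Pushing a real constant on a stack. -/
theorem RConst.push {r : ℝ} (h : RConst r) : ∃ t : ℕ, ∀ {K : Type} [DecidableEq K] (k : K),
    ∃ p : Prog K, ∀ S : Mem K, Runs p S (update S k (.real r :: S k)) t := by
  obtain ⟨q, t, h⟩ := h
  refine ⟨t, fun {K} _ k => ⟨q.map (fun _ => k), fun S => ?_⟩⟩
  have hj : Injective (fun _ : Unit => k) := fun _ _ _ => rfl
  have e := (h (fun _ => S k)).map hj S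
  have e1 : ins (fun _ : Unit => k) (fun _ => S k) S = S := by
    funext k'
    by_cases h : ∃ u : Unit, (fun _ : Unit => k) u = k'
    · obtain ⟨u, hu⟩ := h
      rw [← hu]
      exact ins_apply hj _ _ u
    · unfold ins
      rw [dif_neg h]
  rw [← ins_update hj, e1] at e
  exact e

namespace D

/-- All real leaves are computable constants. -/
def Std : D → Prop
  | nil => True
  | real x => RConst x
  | cons a b => a.Std ∧ b.Std

end D

theorem pushD_runs (c : D) : c.Std → ∃ t : ℕ, ∀ {K : Type} [DecidableEq K] (k : K),
    ∃ p : Prog K, ∀ S : Mem K, Runs p S (update S k (c.enc ++ S k)) t := by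
  induction c with
  | nil =>
    intro _
    exact ⟨1, fun {K} _ k => ⟨.push k false, fun S => Runs.push k false S⟩⟩
  | real x =>
    intro h
    exact RConst.push h
  | cons a b iha ihb =>
    rintro ⟨ha, hb⟩
    obtain ⟨t1, h1⟩ := iha ha
    obtain ⟨t2, h2⟩ := ihb hb
    refine ⟨t2 + (t1 + 1), fun {K} _ k => ?_⟩
    obtain ⟨p1, h1⟩ := h1 k
    obtain ⟨p2, h2⟩ := h2 k
    refine ⟨.seq p2 (.seq p1 (.push k true)), fun S => ?_⟩
    have e1 := h2 S
    have e2 := h1 (update S k (b.enc ++ S k))
    rw [update_self, update_idem] at e2
    have e3 := Runs.push k true (update S k (a.enc ++ (b.enc ++ S k)))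
    rw [update_self, update_idem] at e3
    have e4 : (D.cons a b).enc ++ S k = .bit true :: (a.enc ++ (b.enc ++ S k)) := by
      simp [D.enc]
    rw [e4]
    exact e1.seq (e2.seq e3)

theorem CompT.const (c : D) (hc : c.Std) : ∃ C : ℕ, CompT (fun _ => c) (fun x => x.size + C) := by
  obtain ⟨t, h⟩ := pushD_runs c hc
  obtain ⟨p, hp⟩ := h R.b
  refine ⟨t + 1, R, inferInstance, inferInstance, .seq clearA p, .a, .b, fun x => ?_⟩
  beta_reduce
  rw [single_a, single_b]
  have h1 := clearA_runs x.enc [] [] []
  have h2 := hp (st [] [] [] [])
  rw [st_b, up_b, List.append_nil] at h2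
  rw [D.length_enc] at h1
  exact (h1.seq h2).mono (by omega)

/-- Head. -/
theorem CompT.hd : CompT D.hd (fun x => 8 * x.size + 5) := by
  refine ⟨R, inferInstance, inferInstance, .seq splitP clearA, .a, .b, fun x => ?_⟩
  beta_reduce
  rw [single_a, single_b]
  have h1 := splitP_runs x
  have h2 := clearA_runs x.tl.enc x.hd.enc [] []
  rw [D.length_enc] at h2
  have := D.size_tl_le x
  exact (h1.seq h2).mono (by omega)

/-- Tail. -/
theorem CompT.tl : CompT D.tl (fun x => 11 * x.size + 7) := by
  refine ⟨R, inferInstance, inferInstance,
    .seq splitP (.seq (mv .b .c) (clr .c)), .a, .a, fun x => ?_⟩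
  beta_reduce
  rw [single_a, single_a]
  have h1 := splitP_runs x
  have h2 := mv_runs (a := R.b) (b := R.c) (by decide) (st x.tl.enc x.hd.enc [] [])
  simp only [st_b, up_b, st_c, up_c, List.append_nil, D.length_enc] at h2
  have h4 := clearC_runs x.tl.enc [] x.hd.enc.reverse []
  rw [List.length_reverse, D.length_enc] at h4
  have := D.size_hd_le x
  exact (h1.seq (h2.seq h4)).mono (by omega)

/-- Case distinction on `nil`. -/
theorem CompT.ite {c f g : D → D} {Tc Tf Tg : D → ℕ} (hc : CompT c Tc) (hf : CompT f Tf)
    (hg : CompT g Tg) :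
    CompT (fun x => if c x = .nil then f x else g x)
      (fun x => Tc x + (if c x = .nil then Tf x else Tg x) + 13 * x.size + 5 * (c x).size +
        4 * (if c x = .nil then f x else g x).size + 15) := by
  obtain ⟨K0, _, _, p0, i0, o0, h0⟩ := hc
  obtain ⟨K1, _, _, p1, i1, o1, h1⟩ := hf
  obtain ⟨K2, _, _, p2, i2, o2, h2⟩ := hg
  refine ⟨R ⊕ (K0 ⊕ (K1 ⊕ K2)), inferInstance, inferInstance,
    .seq (copyAB.map Sum.inl) (.seq (callA Sum.inl p0 i0 o0)
      (.case (Sum.inl .a) [] .skip
        (callB (fun k => Sum.inr (Sum.inl k)) p1 i1 o1)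
        (.seq (clearA.map Sum.inl) (callB (fun k => Sum.inr (Sum.inr k)) p2 i2 o2))
        (.seq (clearA.map Sum.inl) (callB (fun k => Sum.inr (Sum.inr k)) p2 i2 o2)))),
    Sum.inl .a, Sum.inl .b, fun x => ?_⟩
  beta_reduce
  rw [single_ma, single_mb]
  have c1 := (copyAB_runs x.enc [] []).reg (K := K0 ⊕ (K1 ⊕ K2))
  rw [List.append_nil, D.length_enc] at c1
  have c2 := callA_runs (K := K0 ⊕ (K1 ⊕ K2)) Sum.inl_injective (h0 x) x.enc []
  by_cases hx : c x = .nil
  · have e : (if c x = .nil then f x else g x) = f x := if_pos hx
    have e' : (if c x = .nil then Tf x else Tg x) = Tf x := if_pos hx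
    rw [e, e']
    have c3 := callB_runs (K := K0 ⊕ (K1 ⊕ K2)) (j := fun k => Sum.inr (Sum.inl k))
      (fun a b h => Sum.inl_injective (Sum.inr_injective h)) (h1 x) [] []
    have c4 : Runs (.case (Sum.inl .a) [] .skip
        (callB (fun k => Sum.inr (Sum.inl k)) p1 i1 o1)
        (.seq (clearA.map Sum.inl) (callB (fun k => Sum.inr (Sum.inr k)) p2 i2 o2))
        (.seq (clearA.map Sum.inl) (callB (fun k => Sum.inr (Sum.inr k)) p2 i2 o2)))
        (mem (K0 ⊕ (K1 ⊕ K2)) (c x).enc x.enc [] []) (mem _ [] (f x).enc [] [])
        (Tf x + 4 * x.size + 4 * (f x).size + 4 + 1) := by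
      rw [hx]
      exact Runs.case_false [] rfl (by rw [upm_a]; exact c3)
    exact (c1.seq (c2.seq c4)).mono (by omega)
  · have e : (if c x = .nil then f x else g x) = g x := if_neg hx
    have e' : (if c x = .nil then Tf x else Tg x) = Tg x := if_neg hx
    rw [e, e']
    have c4 := callB_runs (K := K0 ⊕ (K1 ⊕ K2)) (j := fun k => Sum.inr (Sum.inr k))
      (fun a b h => Sum.inr_injective (Sum.inr_injective h)) (h2 x) [] []
    have c5 : Runs (.case (Sum.inl .a) [] .skip
        (callB (fun k => Sum.inr (Sum.inl k)) p1 i1 o1)
        (.seq (clearA.map Sum.inl) (callB (fun k => Sum.inr (Sum.inr k)) p2 i2 o2))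
        (.seq (clearA.map Sum.inl) (callB (fun k => Sum.inr (Sum.inr k)) p2 i2 o2)))
        (mem (K0 ⊕ (K1 ⊕ K2)) (c x).enc x.enc [] []) (mem _ [] (g x).enc [] [])
        ((c x).size + 1 + (Tg x + 4 * x.size + 4 * (g x).size + 4) + 1) := by
      cases h : c x with
      | nil => exact absurd h hx
      | real v =>
        have c3 := (clearA_runs [] x.enc [] []).reg (K := K0 ⊕ (K1 ⊕ K2))
        exact Runs.mono (Runs.case_real v [] rfl (by
          simp only [pushTo]
          rw [upm_a]
          exact c3.seq c4)) (by simp)
      | cons u v =>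
        have c3 := (clearA_runs (u.enc ++ v.enc) x.enc [] []).reg (K := K0 ⊕ (K1 ⊕ K2))
        have hl : (u.enc ++ v.enc).length ≤ (D.cons u v).size := by
          rw [D.size_cons, List.length_append, D.length_enc, D.length_enc]; omega
        exact Runs.mono (Runs.case_true (u.enc ++ v.enc) rfl (by rw [upm_a]; exact c3.seq c4))
          (by omega)
    exact (c1.seq (c2.seq c5)).mono (by omega)

/-- The sum of `F` over the first `n` iterates. -/
def sumIter (step : D → D) (F : D → ℕ) : ℕ → D → ℕ
  | 0, _ => 0
  | n + 1, s => F s + sumIter step F n (step s)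

/-- Iteration. -/
theorem CompT.iter {c f g : D → D} {Tc Tf Tg : D → ℕ} (hc : CompT c Tc) (hf : CompT f Tf)
    (hg : CompT g Tg) :
    CompT (fun x => g^[(c x).nodes] (f x))
      (fun x => Tc x + Tf x + 13 * x.size + 6 * (c x).size + 4 * (f x).size + 20 +
        sumIter g (fun s => Tg s + 4 * s.size + 4 * (g s).size + 4) (c x).nodes (f x)) := by
  obtain ⟨K0, _, _, p0, i0, o0, h0⟩ := hc
  obtain ⟨K1, _, _, p1, i1, o1, h1⟩ := hf
  obtain ⟨K2, _, _, p2, i2, o2, h2⟩ := hg
  refine ⟨R ⊕ (K0 ⊕ (K1 ⊕ K2)), inferInstance, inferInstance,
    .seq (copyAB.map Sum.inl) (.seq (callA Sum.inl p0 i0 o0)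
      (.seq (callB (fun k => Sum.inr (Sum.inl k)) p1 i1 o1)
      (.loop (Sum.inl .a) [] .skip (callB (fun k => Sum.inr (Sum.inr k)) p2 i2 o2) .skip))),
    Sum.inl .a, Sum.inl .b, fun x => ?_⟩
  beta_reduce
  rw [single_ma, single_mb]
  have c1 := (copyAB_runs x.enc [] []).reg (K := K0 ⊕ (K1 ⊕ K2))
  rw [List.append_nil, D.length_enc] at c1
  have c2 := callA_runs (K := K0 ⊕ (K1 ⊕ K2)) Sum.inl_injective (h0 x) x.enc []
  have c3 := callB_runs (K := K0 ⊕ (K1 ⊕ K2)) (j := fun k => Sum.inr (Sum.inl k))
      (fun a b h => Sum.inl_injective (Sum.inr_injective h)) (h1 x) (c x).enc []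
  have c4 : ∀ (l : List Tok) (s : D),
      Runs (.loop (Sum.inl .a) [] .skip (callB (fun k => Sum.inr (Sum.inr k)) p2 i2 o2) .skip)
      (mem (K0 ⊕ (K1 ⊕ K2)) l s.enc [] [])
      (mem (K0 ⊕ (K1 ⊕ K2)) [] (g^[ctrue l] s).enc [] [])
      (l.length + 1 + sumIter g (fun s => Tg s + 4 * s.size + 4 * (g s).size + 4)
        (ctrue l) s) := by
    intro l
    induction l with
    | nil => intro s; exact Runs.mono (Runs.loop_nil rfl) (by simp)
    | cons b l ih =>
      intro s
      cases b with
      | bit b =>
        cases b with
        | false =>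
          have e : ctrue (.bit false :: l) = ctrue l := rfl
          rw [e]
          exact Runs.mono (Runs.loop_false l rfl (by rw [upm_a]; exact Runs.skip _) (ih s))
            (by simp only [List.length_cons]; omega)
        | true =>
          have e : ctrue (.bit true :: l) = ctrue l + 1 := rfl
          rw [e, iterate_succ_apply]
          have c5 := callB_runs (K := K0 ⊕ (K1 ⊕ K2)) (j := fun k => Sum.inr (Sum.inr k))
            (fun a b h => Sum.inr_injective (Sum.inr_injective h)) (h2 s) l []
          refine Runs.mono (Runs.loop_true l rfl (by rw [upm_a]; exact c5) (ih (g s))) ?_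
          simp only [sumIter, List.length_cons]
          omega
      | real v =>
        have e : ctrue (.real v :: l) = ctrue l := rfl
        rw [e]
        exact Runs.mono (Runs.loop_real v l rfl (by
          simp only [pushTo]
          rw [upm_a]
          exact Runs.skip _) (ih s))
          (by simp only [List.length_cons, List.length_nil]; omega)
  have c6 := c4 (c x).enc (f x)
  rw [D.ctrue_enc, D.length_enc] at c6
  exact (c1.seq (c2.seq (c3.seq c6))).mono (by omega)

/-- Record a mismatch. -/
def mis : Prog R := .push .c true

theorem mis_runs (x y z w : List Tok) : Runs mis (st x y z w) (st x y (.bit true :: z) w) 1 := by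
  have := Runs.push .c true (st x y z w)
  simp only [st_c, up_c] at this
  exact this

theorem clrmis_runs (x y z : List Tok) (v : Tok) :
    Runs (.seq (clr .d) mis) (st x y z [v]) (st x y (.bit true :: z) []) 3 :=
  ((clearD_runs x y z [v]).seq (mis_runs x y z [])).mono (by simp)

/-- Equality test of the two components. -/
def eqLoop : Prog R :=
  .loop .a [.d]
    (.case .b [] mis .skip mis mis)
    (.case .b [] mis mis .skip mis)
    (.case .b [.d] (.seq (clr .d) mis) (.seq (clr .d) mis) (.seq (clr .d) mis)
      (.seq (.op .eq .d) (.case .d [] .skip mis .skip .skip)))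

/-- After the loop, decide. -/
def eqP : Prog R :=
  .seq splitP (.seq eqLoop (.seq (.case .b [] .skip mis mis mis)
    (.seq (clr .b)
      (.case .c [] (.seq (.push .a false) (.seq (.push .a false) (.push .a true)))
        (.seq (clr .c) (.push .a false))
        (.seq (clr .c) (.push .a false))
        (.seq (clr .c) (.push .a false))))))

open Classical in
theorem eqLoop_step (c : Tok) (l m cs : List Tok) (S' : Mem R) (T : ℕ)
    (h : Runs eqLoop (st l m.tail (if m.head? = some c then cs else .bit true :: cs) []) S' T) :
    Runs eqLoop (st (c :: l) m cs []) S' (T + 7) := by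
  have hm := mis_runs l m.tail cs []
  have hs := (Runs.skip (st l m.tail cs [])).mono (Nat.zero_le 1)
  cases c with
  | bit b =>
    have key : ∀ pf pt pr : Prog R, (b = false → pf = .skip ∧ pt = mis ∧ pr = mis) →
        (b = true → pf = mis ∧ pt = .skip ∧ pr = mis) →
        Runs (.case .b [] mis pf pt pr) (st l m cs [])
          (st l m.tail (if m.head? = some (.bit b) then cs else .bit true :: cs) []) 2 := by
      intro pf pt pr h0 h1
      cases m with
      | nil =>
        rw [if_neg (by simp)]
        exact Runs.case_nil rfl hm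
      | cons e m =>
        cases e with
        | bit e =>
          cases b with
          | false =>
            obtain ⟨rfl, rfl, rfl⟩ := h0 rfl
            cases e with
            | false =>
              rw [if_pos (show (Tok.bit false :: m).head? = some (Tok.bit false) from rfl)]
              exact Runs.case_false m rfl (by rw [up_b]; exact hs)
            | true =>
              rw [if_neg (by simp)]
              exact Runs.case_true m rfl (by rw [up_b]; exact hm)
          | true =>
            obtain ⟨rfl, rfl, rfl⟩ := h1 rfl
            cases e with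
            | false =>
              rw [if_neg (by simp)]
              exact Runs.case_false m rfl (by rw [up_b]; exact hm)
            | true =>
              rw [if_pos (show (Tok.bit true :: m).head? = some (Tok.bit true) from rfl)]
              exact Runs.case_true m rfl (by rw [up_b]; exact hs)
        | real v =>
          rw [if_neg (by simp)]
          have hpr : pr = mis := by
            cases b with
            | false => exact (h0 rfl).2.2
            | true => exact (h1 rfl).2.2
          subst hpr
          exact Runs.case_real v m rfl (by simp only [pushTo]; rw [up_b]; exact hm)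
    cases b with
    | false =>
      exact Runs.mono (Runs.loop_false l rfl (by
        rw [up_a]; exact key _ _ _ (fun _ => ⟨rfl, rfl, rfl⟩) (fun h => by cases h)) h) (by omega)
    | true =>
      exact Runs.mono (Runs.loop_true l rfl (by
        rw [up_a]; exact key _ _ _ (fun h => by cases h) (fun _ => ⟨rfl, rfl, rfl⟩)) h) (by omega)
  | real x =>
    have hb : Runs (.case .b [.d] (.seq (clr .d) mis) (.seq (clr .d) mis) (.seq (clr .d) mis)
        (.seq (.op .eq .d) (.case .d [] .skip mis .skip .skip))) (st l m cs [.real x])
        (st l m.tail (if m.head? = some (.real x) then cs else .bit true :: cs) []) 5 := by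
      have hc := clrmis_runs l m.tail cs (.real x)
      cases m with
      | nil =>
        rw [if_neg (by simp)]
        exact (Runs.case_nil rfl hc).mono (by omega)
      | cons e m =>
        cases e with
        | bit e =>
          rw [if_neg (by simp)]
          cases e with
          | false =>
            refine Runs.mono (T := 3 + 1) (Runs.case_false m rfl ?_) (by omega)
            rw [up_b]; exact hc
          | true =>
            refine Runs.mono (T := 3 + 1) (Runs.case_true m rfl ?_) (by omega)
            rw [up_b]; exact hc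
        | real y =>
          refine Runs.mono (Runs.case_real (T := 1 + 2) y m rfl ?_) (by simp)
          simp only [pushTo, up_b, up_d, st_d]
          have h1 := Runs.op .eq .d (st l m cs [.real y, .real x]) y x [] rfl
          simp only [up_d] at h1
          refine h1.seq ?_
          by_cases hxy : y = x
          · subst hxy
            rw [if_pos (show (Tok.real y :: m).head? = some (Tok.real y) from rfl)]
            have e : Op.val .eq y y = .bit true := by simp [Op.val]
            rw [e]
            exact Runs.case_true [] rfl (by rw [up_d]; exact hs)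
          · rw [if_neg (by simp [hxy])]
            have e : Op.val .eq y x = .bit false := by simp [Op.val, hxy]
            rw [e]
            exact Runs.case_false [] rfl (by rw [up_d]; exact hm)
    exact Runs.mono (Runs.loop_real x l rfl (by
      simp only [pushTo, up_a, up_d, st_d]; exact hb) h) (by
        simp only [List.length_cons, List.length_nil]; omega)

theorem eqLoop_runs (l m cs : List Tok) : ∃ m' cs',
    Runs eqLoop (st l m cs []) (st [] m' cs' []) (7 * l.length + 1) ∧
    m'.length ≤ m.length ∧ cs'.length ≤ cs.length + l.length ∧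
    ((m' = [] ∧ cs' = []) ↔ (l = m ∧ cs = [])) := by
  classical
  induction l generalizing m cs with
  | nil =>
    refine ⟨m, cs, Runs.loop_nil rfl, le_refl _, by simp, ?_⟩
    constructor
    · rintro ⟨rfl, rfl⟩; exact ⟨rfl, rfl⟩
    · rintro ⟨rfl, rfl⟩; exact ⟨rfl, rfl⟩
  | cons c l ih =>
    obtain ⟨m', cs', hr, h1, h2, h3⟩ := ih m.tail (if m.head? = some c then cs else .bit true :: cs)
    refine ⟨m', cs', (eqLoop_step c l m cs _ _ hr).mono (by simp; omega), ?_, ?_, ?_⟩
    · have : m.tail.length ≤ m.length := by simp
      omega
    · have : (if m.head? = some c then cs else .bit true :: cs).length ≤ cs.length + 1 := by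
        split_ifs <;> simp
      rw [List.length_cons]
      omega
    · rw [h3]
      by_cases hm : m.head? = some c
      · rw [if_pos hm]
        cases m with
        | nil => simp at hm
        | cons e m =>
          have : e = c := by simpa using hm
          subst this
          simp
      · rw [if_neg hm]
        constructor
        · rintro ⟨_, h⟩; cases h
        · rintro ⟨rfl, _⟩; simp at hm

theorem CompT.eq : CompT (fun x => D.ofBool (decide (x.tl = x.hd)))
    (fun x => 30 * x.size + 30) := by
  refine ⟨R, inferInstance, inferInstance, eqP, .a, .a, fun x => ?_⟩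
  beta_reduce
  rw [single_a, single_a]
  have h1 := splitP_runs x
  obtain ⟨m', cs', hr, hm, hc, hiff⟩ := eqLoop_runs x.tl.enc x.hd.enc []
  have ht := D.size_tl_le x
  have hh := D.size_hd_le x
  simp only [D.length_enc, List.length_nil, zero_add, and_true] at hm hc hiff hr
  -- the third stage
  have h3 : ∃ cs'', Runs (.case R.b [] .skip mis mis mis)
      (st [] m' cs' []) (st [] m'.tail cs'' []) 2 ∧
      cs''.length ≤ cs'.length + 1 ∧ (cs'' = [] ↔ (m' = [] ∧ cs' = [])) := by
    cases m' with
    | nil =>
      exact ⟨cs', Runs.case_nil rfl ((Runs.skip _).mono (by omega)), by omega, by simp⟩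
    | cons b m =>
      refine ⟨.bit true :: cs', ?_, by simp, by simp⟩
      have hp := mis_runs [] m cs' []
      cases b with
      | bit b =>
        cases b with
        | false => exact Runs.case_false m rfl (by rw [up_b]; exact hp)
        | true => exact Runs.case_true m rfl (by rw [up_b]; exact hp)
      | real v => exact Runs.case_real v m rfl (by simp only [pushTo]; rw [up_b]; exact hp)
  obtain ⟨cs'', hr3, hc3, hiff3⟩ := h3
  have h4 := clearB_runs [] m'.tail cs'' []
  have hmt : m'.tail.length ≤ m'.length := by simp
  have h5 : Runs (.case R.c [] (.seq (.push .a false) (.seq (.push .a false) (.push .a true)))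
        (.seq (clr .c) (.push .a false))
        (.seq (clr .c) (.push .a false))
        (.seq (clr .c) (.push .a false))) (st [] [] cs'' [])
        (st (D.ofBool (decide (x.tl = x.hd))).enc [] [] []) (cs''.length + 5) := by
    cases hcs : cs'' with
    | nil =>
      have : x.tl = x.hd := D.enc_injective (hiff.1 (hiff3.1 hcs))
      rw [decide_eq_true this]
      refine Runs.mono (Runs.case_nil rfl (T := 1 + (1 + 1)) ?_) (by simp)
      have a1 := Runs.push .a false (st [] [] [] [])
      simp only [st_a, up_a] at a1
      have a2 := Runs.push .a false (st [.bit false] [] [] [])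
      simp only [st_a, up_a] at a2
      have a3 := Runs.push .a true (st [.bit false, .bit false] [] [] [])
      simp only [st_a, up_a] at a3
      exact a1.seq (a2.seq a3)
    | cons b l =>
      have : ¬ x.tl = x.hd := by
        intro h
        have := hiff3.2 (hiff.2 (congrArg D.enc h))
        rw [hcs] at this
        cases this
      rw [decide_eq_false this]
      have a1 := clearC_runs [] [] l []
      have a2 := Runs.push .a false (st [] [] [] [])
      simp only [st_a, up_a] at a2
      cases b with
      | bit b =>
        cases b with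
        | false =>
          exact Runs.mono (Runs.case_false l rfl (by rw [up_c]; exact a1.seq a2))
            (by simp only [List.length_cons]; omega)
        | true =>
          exact Runs.mono (Runs.case_true l rfl (by rw [up_c]; exact a1.seq a2))
            (by simp only [List.length_cons]; omega)
      | real v =>
        exact Runs.mono (Runs.case_real v l rfl (by
          simp only [pushTo]; rw [up_c]; exact a1.seq a2))
          (by simp only [List.length_cons, List.length_nil]; omega)
  exact (h1.seq (hr.seq (hr3.seq (h4.seq h5)))).mono (by omega)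

/-- Operations on pairs of reals (`nil` for other arguments). -/
noncomputable def opD (o : Op) (x : D) : D :=
  match x.hd, x.tl with
  | .real a, .real b => D.ofTok (o.val a b)
  | _, _ => .nil

/-- Program for an operation. -/
def opP (o : Op) : Prog R :=
  .seq splitP (.case .a [.c] .skip
    (.seq (clr .b) (.push .a false))
    (.seq (clr .a) (.seq (clr .b) (.push .a false)))
    (.case .b [.c] .skip
      (.seq (clr .c) (.push .a false))
      (.seq (clr .b) (.seq (clr .c) (.push .a false)))
      (.seq (.op o .c) (.case .c [.a] .skip (.push .a false)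
        (.seq (.push .a false) (.seq (.push .a false) (.push .a true))) .skip))))

theorem CompT.op (o : Op) : CompT (opD o) (fun x => 10 * x.size + 30) := by
  refine ⟨R, inferInstance, inferInstance, opP o, .a, .a, fun x => ?_⟩
  beta_reduce
  rw [single_a, single_a]
  have h1 := splitP_runs x
  have ht := D.size_tl_le x
  have hh := D.size_hd_le x
  refine Runs.mono (h1.seq (T' := x.tl.size + x.hd.size + 15) ?_) (by omega)
  have hpa : Runs (.push .a false) (st [] [] [] []) (st [.bit false] [] [] []) 1 := by
    have := Runs.push .a false (st [] [] [] [])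
    simp only [st_a, up_a] at this
    exact this
  unfold opD
  cases htl : x.tl with
  | nil =>
    have e : (match x.hd, D.nil with
      | .real a, .real b => D.ofTok (o.val a b)
      | _, _ => D.nil) = D.nil := by cases x.hd <;> rfl
    rw [e]
    have h2 := clearB_runs [] x.hd.enc [] []
    rw [D.length_enc] at h2
    exact Runs.mono (Runs.case_false [] rfl (by rw [up_a]; exact h2.seq hpa)) (by omega)
  | cons u v =>
    have e : (match x.hd, D.cons u v with
      | .real a, .real b => D.ofTok (o.val a b)
      | _, _ => D.nil) = D.nil := by cases x.hd <;> rfl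
    rw [e]
    have h2 := clearA_runs (u.enc ++ v.enc) x.hd.enc [] []
    have h3 := clearB_runs [] x.hd.enc [] []
    rw [D.length_enc] at h3
    have hl : (u.enc ++ v.enc).length ≤ (D.cons u v).size := by
      rw [D.size_cons, List.length_append, D.length_enc, D.length_enc]; omega
    exact Runs.mono (Runs.case_true (u.enc ++ v.enc) rfl (by
      rw [up_a]; exact h2.seq (h3.seq hpa))) (by omega)
  | real b =>
    refine Runs.mono (Runs.case_real (T := x.hd.size + 12) b [] rfl ?_) (by
      simp only [List.length_cons, List.length_nil, D.size_real]; omega)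
    simp only [pushTo, up_a, up_c, st_c]
    cases hhd : x.hd with
    | nil =>
      have h2 := clearC_runs [] [] [.real b] []
      exact Runs.mono (Runs.case_false [] rfl (by rw [up_b]; exact h2.seq hpa))
        (by simp only [List.length_cons, List.length_nil]; omega)
    | cons u v =>
      have h2 := clearB_runs [] (u.enc ++ v.enc) [.real b] []
      have h3 := clearC_runs [] [] [.real b] []
      have hl : (u.enc ++ v.enc).length ≤ (D.cons u v).size := by
        rw [D.size_cons, List.length_append, D.length_enc, D.length_enc]; omega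
      exact Runs.mono (Runs.case_true (u.enc ++ v.enc) rfl (by
        rw [up_b]; exact h2.seq (h3.seq hpa))) (by
          simp only [List.length_cons, List.length_nil]; omega)
    | real a =>
      refine Runs.mono (Runs.case_real (T := 1 + 5) a [] rfl ?_) (by
        simp only [List.length_cons, List.length_nil]; omega)
      simp only [pushTo, up_b, up_c, st_c]
      have h2 := Runs.op o .c (st [] [] [.real a, .real b] []) a b [] rfl
      simp only [up_c] at h2
      refine h2.seq ?_
      cases o.val a b with
      | bit v =>
        cases v with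
        | false =>
          exact Runs.mono (Runs.case_false [] rfl (by rw [up_c]; exact hpa)) (by omega)
        | true =>
          have a2 := Runs.push .a false (st [.bit false] [] [] [])
          simp only [st_a, up_a] at a2
          have a3 := Runs.push .a true (st [.bit false, .bit false] [] [] [])
          simp only [st_a, up_a] at a3
          exact Runs.mono (Runs.case_true [] rfl (by
            rw [up_c]; exact hpa.seq (a2.seq a3))) (by omega)
      | real v =>
        refine Runs.mono (Runs.case_real (T := 0) v [] rfl ?_) (by simp)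
        simp only [pushTo, up_c, up_a, st_a]
        exact Runs.skip _

end Pool.Agent.RRAM
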