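import Pool.Agent.Work.RRAM.Machine

/-!
# Structured stack programs with real numbers and their compilation to the real RAM

`Prog K` is a small structured language whose memory is a family of stacks of tokens indexed by
`K`; a token is a bit or a real number.  `Exec p S S' t` says that `p` transforms `S` into `S'`
in exactly `t` units of time.  `sim` simulates such programs by the machine of `Machine.lean`.
-/

set_option autoImplicit false

namespace Pool.Agent.RRAM

open Function

/-- Tokens. -/
inductive Tok : Type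
  | bit (b : Bool) : Tok
  | real (x : ℝ) : Tok

/-- Operations on reals. -/
inductive Op : Type
  | add | sub | mul | sqrt | lt | eq

open Classical in
/-- The value of an operation. -/
noncomputable def Op.val : Op → ℝ → ℝ → Tok
  | .add, x, y => .real (x + y)
  | .sub, x, y => .real (x - y)
  | .mul, x, y => .real (x * y)
  | .sqrt, x, _ => .real (Real.sqrt x)
  | .lt, x, y => .bit (decide (x < y))
  | .eq, x, y => .bit (decide (x = y))

/-- Structured programs over stacks of tokens indexed by `K`. -/
inductive Prog (K : Type) : Type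
  | skip : Prog K
  | push (k : K) (b : Bool) : Prog K
  | one (k : K) : Prog K
  | op (o : Op) (k : K) : Prog K
  | seq (p q : Prog K) : Prog K
  | case (k : K) (ks : List K) (pn pf pt pr : Prog K) : Prog K
  | loop (k : K) (ks : List K) (pf pt pr : Prog K) : Prog K

/-- Memory: one stack of tokens for each index. -/
abbrev Mem (K : Type) := K → List Tok

/-- Push a real number on several stacks. -/
def pushTo {K : Type} [DecidableEq K] (x : ℝ) : List K → Mem K → Mem K
  | [], S => S
  | k :: ks, S => pushTo x ks (update S k (.real x :: S k))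

/-- Big-step semantics with exact cost. -/
inductive Exec {K : Type} [DecidableEq K] : Prog K → Mem K → Mem K → ℕ → Prop
  | skip (S : Mem K) : Exec .skip S S 0
  | push (k : K) (b : Bool) (S : Mem K) : Exec (.push k b) S (update S k (.bit b :: S k)) 1
  | one (k : K) (S : Mem K) : Exec (.one k) S (update S k (.real 1 :: S k)) 1
  | op (o : Op) (k : K) (S : Mem K) (x y : ℝ) (l : List Tok) : S k = .real x :: .real y :: l →
      Exec (.op o k) S (update S k (o.val x y :: l)) 1
  | seq {p q : Prog K} {S S' S'' : Mem K} {t t' : ℕ} :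
      Exec p S S' t → Exec q S' S'' t' → Exec (.seq p q) S S'' (t + t')
  | case_nil {k : K} {ks : List K} {pn pf pt pr : Prog K} {S S' : Mem K} {t : ℕ} :
      S k = [] → Exec pn S S' t → Exec (.case k ks pn pf pt pr) S S' (t + 1)
  | case_bit {k : K} {ks : List K} {pn pf pt pr : Prog K} {S S' : Mem K} {t : ℕ} (b : Bool)
      (l : List Tok) : S k = .bit b :: l → Exec (bif b then pt else pf) (update S k l) S' t →
      Exec (.case k ks pn pf pt pr) S S' (t + 1)
  | case_real {k : K} {ks : List K} {pn pf pt pr : Prog K} {S S' : Mem K} {t : ℕ} (x : ℝ)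
      (l : List Tok) : S k = .real x :: l → Exec pr (pushTo x ks (update S k l)) S' t →
      Exec (.case k ks pn pf pt pr) S S' (t + 1 + ks.length)
  | loop_nil {k : K} {ks : List K} {pf pt pr : Prog K} {S : Mem K} :
      S k = [] → Exec (.loop k ks pf pt pr) S S 1
  | loop_bit {k : K} {ks : List K} {pf pt pr : Prog K} {S S' S'' : Mem K} {t t' : ℕ} (b : Bool)
      (l : List Tok) : S k = .bit b :: l → Exec (bif b then pt else pf) (update S k l) S' t →
      Exec (.loop k ks pf pt pr) S' S'' t' → Exec (.loop k ks pf pt pr) S S'' (t + t' + 1)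
  | loop_real {k : K} {ks : List K} {pf pt pr : Prog K} {S S' S'' : Mem K} {t t' : ℕ} (x : ℝ)
      (l : List Tok) : S k = .real x :: l → Exec pr (pushTo x ks (update S k l)) S' t →
      Exec (.loop k ks pf pt pr) S' S'' t' →
      Exec (.loop k ks pf pt pr) S S'' (t + t' + 1 + ks.length)

/-! ### Compilation -/

/-- Unconditional jump. -/
def goto (l : ℕ) : Instr := .jlt 0 1 l

/-- Push register `4` as a real token on several stacks. -/
def pushes {K : Type} (N : K → ℕ) : List K → List Instr
  | [] => []
  | k :: ks => .push (N k) 4 :: .push (N k) 2 :: pushes N ks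

/-- The last part of the code of an operation. -/
def opCode (s a : ℕ) : Op → List Instr
  | .add => [.add 6 4 5, .push s 6, .push s 2]
  | .sub => [.sub 6 4 5, .push s 6, .push s 2]
  | .mul => [.mul 6 4 5, .push s 6, .push s 2]
  | .sqrt => [.sqrt 6 4, .push s 6, .push s 2]
  | .lt => [.jlt 4 5 (a + 3), .push s 0, goto (a + 4), .push s 1]
  | .eq => [.jlt 4 5 (a + 4), .jlt 5 4 (a + 4), .push s 1, goto (a + 5), .push s 0]

/-- The length of the code. -/
def len {K : Type} : Prog K → ℕ
  | .skip => 0
  | .push _ _ => 1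
  | .one _ => 2
  | .op o _ => 4 + (opCode 0 0 o).length
  | .seq p q => len p + len q
  | .case _ ks pn pf pt pr => 4 + 2 * ks.length + (len pr + 1) + (len pf + 1) + (len pt + 1) + len pn
  | .loop _ ks pf pt pr => 4 + 2 * ks.length + (len pr + 1) + (len pf + 1) + (len pt + 1)

/-- Compilation of a program at the address `a`. -/
def code {K : Type} (N : K → ℕ) : Prog K → ℕ → List Instr
  | .skip, _ => []
  | .push k b, _ => [.push (N k) (bif b then 1 else 0)]
  | .one k, _ => [.push (N k) 1, .push (N k) 2]
  | .op o k, a => [.pop (N k) 3 0, .pop (N k) 4 0, .pop (N k) 3 0, .pop (N k) 5 0] ++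
      opCode (N k) (a + 4) o
  | .seq p q, a => code N p a ++ code N q (a + len p)
  | .case k ks pn pf pt pr, a =>
      let A := a + 4 + 2 * ks.length
      let F := A + (len pr + 1)
      let T := F + (len pf + 1)
      let Z := T + (len pt + 1)
      let E := Z + len pn
      [.pop (N k) 3 Z, .jlt 3 1 F, .jlt 3 2 T, .pop (N k) 4 0] ++ (pushes N ks ++
        ((code N pr A ++ [goto E]) ++ ((code N pf F ++ [goto E]) ++
          ((code N pt T ++ [goto E]) ++ code N pn Z))))
  | .loop k ks pf pt pr, a =>
      let A := a + 4 + 2 * ks.length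
      let F := A + (len pr + 1)
      let T := F + (len pf + 1)
      let E := T + (len pt + 1)
      [.pop (N k) 3 E, .jlt 3 1 F, .jlt 3 2 T, .pop (N k) 4 0] ++ (pushes N ks ++
        ((code N pr A ++ [goto a]) ++ ((code N pf F ++ [goto a]) ++
          (code N pt T ++ [goto a]))))

theorem length_pushes {K : Type} (N : K → ℕ) (ks : List K) :
    (pushes N ks).length = 2 * ks.length := by
  induction ks with
  | nil => rfl
  | cons k ks ih => simp only [pushes, List.length_cons, ih]; omega

theorem length_opCode (s a : ℕ) (o : Op) : (opCode s a o).length = (opCode 0 0 o).length := by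
  cases o <;> rfl

theorem length_code {K : Type} (N : K → ℕ) (p : Prog K) (a : ℕ) : (code N p a).length = len p := by
  induction p generalizing a with
  | skip => rfl
  | push k b => rfl
  | one k => rfl
  | op o k =>
    simp only [code, len, List.length_append, length_opCode (N k)]
    rfl
  | seq p q ihp ihq => simp only [code, len, List.length_append, ihp, ihq]
  | case k ks pn pf pt pr ihn ihf iht ihr =>
    simp only [code, len, List.length_append, length_pushes, ihn, ihf, iht, ihr,
      List.length_cons, List.length_nil]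
    omega
  | loop k ks pf pt pr ihf iht ihr =>
    simp only [code, len, List.length_append, length_pushes, ihf, iht, ihr,
      List.length_cons, List.length_nil]
    omega

/-- The list `L` occurs in the program `P` at the address `a`. -/
def At (P : List Instr) (a : ℕ) (L : List Instr) : Prop :=
  ∀ i < L.length, P[a + i]? = L[i]?

theorem At.append {P : List Instr} {a : ℕ} {L M : List Instr} (h : At P a (L ++ M)) :
    At P a L ∧ At P (a + L.length) M := by
  constructor
  · intro i hi
    rw [h i (by rw [List.length_append]; omega), List.getElem?_append_left hi]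
  · intro i hi
    rw [add_assoc, h (L.length + i) (by rw [List.length_append]; omega),
      List.getElem?_append_right (by omega)]
    congr 1
    omega

theorem At.cons {P : List Instr} {a : ℕ} {x : Instr} {L : List Instr} (h : At P a (x :: L)) :
    P[a]? = some x ∧ At P (a + 1) L := by
  constructor
  · exact h 0 (by simp)
  · intro i hi
    have := h (i + 1) (by simpa using hi)
    rw [List.getElem?_cons_succ] at this
    rw [← this]
    congr 1
    omega

theorem At.self (L M : List Instr) : At (L ++ M) L.length M := by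
  intro i _
  rw [List.getElem?_append_right (by omega)]
  congr 1
  omega

/-- `n` steps lead from `c` to `c'`. -/
def Reach (P : List Instr) (n : ℕ) (c c' : Cfg) : Prop := (step P)^[n] c = c'

theorem Reach.refl (P : List Instr) (c : Cfg) : Reach P 0 c c := rfl

theorem Reach.trans {P : List Instr} {m n : ℕ} {c c' c'' : Cfg} (h : Reach P m c c')
    (h' : Reach P n c' c'') : Reach P (m + n) c c'' := by
  unfold Reach at *
  rw [add_comm, iterate_add_apply, h, h']

theorem Reach.one {P : List Instr} {c c' : Cfg} (h : step P c = c') : Reach P 1 c c' := h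

theorem step_push {P : List Instr} {a s r : ℕ} (h : P[a]? = some (.push s r)) (reg : ℕ → ℝ)
    (stk : ℕ → List ℝ) :
    Reach P 1 ⟨a, reg, stk⟩ ⟨a + 1, reg, update stk s (reg r :: stk s)⟩ := by
  apply Reach.one
  simp only [step, h]

theorem step_pop {P : List Instr} {a s r l : ℕ} (h : P[a]? = some (.pop s r l)) (reg : ℕ → ℝ)
    (stk : ℕ → List ℝ) (x : ℝ) (t : List ℝ) (hs : stk s = x :: t) :
    Reach P 1 ⟨a, reg, stk⟩ ⟨a + 1, update reg r x, update stk s t⟩ := by
  apply Reach.one
  simp only [step, h, hs]

theorem step_pop_nil {P : List Instr} {a s r l : ℕ} (h : P[a]? = some (.pop s r l))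
    (reg : ℕ → ℝ) (stk : ℕ → List ℝ) (hs : stk s = []) :
    Reach P 1 ⟨a, reg, stk⟩ ⟨l, reg, stk⟩ := by
  apply Reach.one
  simp only [step, h, hs]

theorem step_jlt_pos {P : List Instr} {a x y l : ℕ} (h : P[a]? = some (.jlt x y l))
    (reg : ℕ → ℝ) (stk : ℕ → List ℝ) (hlt : reg x < reg y) :
    Reach P 1 ⟨a, reg, stk⟩ ⟨l, reg, stk⟩ := by
  apply Reach.one
  simp only [step, h, hlt, if_true]

theorem step_jlt_neg {P : List Instr} {a x y l : ℕ} (h : P[a]? = some (.jlt x y l))
    (reg : ℕ → ℝ) (stk : ℕ → List ℝ) (hlt : ¬ reg x < reg y) :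
    Reach P 1 ⟨a, reg, stk⟩ ⟨a + 1, reg, stk⟩ := by
  apply Reach.one
  simp only [step, h, hlt, if_false]

/-- The fixed registers have their values. -/
structure Good (reg : ℕ → ℝ) : Prop where
  r0 : reg 0 = 0
  r1 : reg 1 = 1
  r2 : reg 2 = 2

theorem Good.update {reg : ℕ → ℝ} (h : Good reg) {r : ℕ} (hr : 3 ≤ r) (x : ℝ) :
    Good (update reg r x) := by
  refine ⟨?_, ?_, ?_⟩
  · rw [update_of_ne (by omega)]; exact h.r0
  · rw [update_of_ne (by omega)]; exact h.r1
  · rw [update_of_ne (by omega)]; exact h.r2

theorem step_goto {P : List Instr} {a l : ℕ} (h : P[a]? = some (goto l)) {reg : ℕ → ℝ}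
    (hr : Good reg) (stk : ℕ → List ℝ) : Reach P 1 ⟨a, reg, stk⟩ ⟨l, reg, stk⟩ :=
  step_jlt_pos h reg stk (by rw [hr.r0, hr.r1]; exact one_pos)

/-- Tokens as reals. -/
def encT : List Tok → List ℝ
  | [] => []
  | .bit false :: l => 0 :: encT l
  | .bit true :: l => 1 :: encT l
  | .real x :: l => 2 :: x :: encT l

open Classical in
/-- The stacks of the machine. -/
noncomputable def lift {K : Type} (N : K → ℕ) (S : Mem K) (U : ℕ → List ℝ) : ℕ → List ℝ :=
  fun m => if h : ∃ k, N k = m then encT (S h.choose) else U m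

theorem lift_apply {K : Type} {N : K → ℕ} (hN : Injective N) (S : Mem K) (U : ℕ → List ℝ) (k : K) :
    lift N S U (N k) = encT (S k) := by
  unfold lift
  have h : ∃ k1, N k1 = N k := ⟨k, rfl⟩
  rw [dif_pos h]
  exact congrArg (fun k => encT (S k)) (hN h.choose_spec)

theorem lift_update {K : Type} [DecidableEq K] {N : K → ℕ} (hN : Injective N) (S : Mem K)
    (U : ℕ → List ℝ) (k : K) (v : List Tok) :
    update (lift N S U) (N k) (encT v) = lift N (update S k v) U := by
  funext m
  by_cases h : ∃ k1, N k1 = m
  · obtain ⟨k1, rfl⟩ := h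
    rw [lift_apply hN]
    by_cases h2 : k1 = k
    · subst h2; simp
    · rw [update_of_ne (fun h => h2 (hN h)), lift_apply hN, update_of_ne h2]
  · have h2 : m ≠ N k := fun e => h ⟨k, e.symm⟩
    rw [update_of_ne h2]
    unfold lift
    rw [dif_neg h, dif_neg h]

section sim

variable {K : Type} [DecidableEq K]

theorem sim_pushReal {P : List Instr} {N : K → ℕ} (hN : Injective N) {a : ℕ} {k : K} {r : ℕ}
    (h : At P a [.push (N k) r, .push (N k) 2]) {reg : ℕ → ℝ} (hr : Good reg) (S : Mem K)
    (U : ℕ → List ℝ) : Reach P 2 ⟨a, reg, lift N S U⟩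
      ⟨a + 2, reg, lift N (update S k (.real (reg r) :: S k)) U⟩ := by
  obtain ⟨h1, h2⟩ := h.cons
  obtain ⟨h2, -⟩ := h2.cons
  refine ((step_push h1 reg (lift N S U)).trans (step_push h2 reg _)).trans ?_ (n := 0)
  show Cfg.mk _ _ _ = _
  rw [update_self, update_idem, lift_apply hN, hr.r2, ← lift_update hN]
  rfl

theorem sim_pushes {P : List Instr} {N : K → ℕ} (hN : Injective N) {x : ℝ} {ks : List K} :
    ∀ {a : ℕ}, At P a (pushes N ks) → ∀ {reg : ℕ → ℝ}, Good reg → reg 4 = x →
    ∀ (S : Mem K) (U : ℕ → List ℝ), Reach P (2 * ks.length) ⟨a, reg, lift N S U⟩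
      ⟨a + 2 * ks.length, reg, lift N (pushTo x ks S) U⟩ := by
  induction ks with
  | nil => intro a _ reg _ _ S U; exact Reach.refl _ _
  | cons k ks ih =>
    intro a h reg hr hx S U
    have h' : At P a ([.push (N k) 4, .push (N k) 2] ++ pushes N ks) := h
    obtain ⟨h1, h2⟩ := h'.append
    have e1 := sim_pushReal hN h1 hr S U
    rw [hx] at e1
    have e2 := ih h2 hr hx (update S k (.real x :: S k)) U
    have := e1.trans e2
    rw [List.length_cons]
    have e3 : 2 + 2 * ks.length = 2 * (ks.length + 1) := by ring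
    have e4 : a + [Instr.push (N k) 4, Instr.push (N k) 2].length + 2 * ks.length =
      a + 2 * (ks.length + 1) := by
      simp only [List.length_cons, List.length_nil]; omega
    rw [e3, e4] at this
    exact this

/-- Popping the tag of a bit. -/
theorem sim_bit {P : List Instr} {N : K → ℕ} (hN : Injective N) {a : ℕ} {k : K} {Z F T : ℕ}
    (h : At P a [.pop (N k) 3 Z, .jlt 3 1 F, .jlt 3 2 T, .pop (N k) 4 0]) {reg : ℕ → ℝ}
    (hr : Good reg) (S : Mem K) (U : ℕ → List ℝ) (b : Bool) (l : List Tok)
    (hk : S k = .bit b :: l) : ∃ n ≤ 3, ∃ reg', Good reg' ∧ Reach P n ⟨a, reg, lift N S U⟩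
      ⟨bif b then T else F, reg', lift N (update S k l) U⟩ := by
  obtain ⟨h1, h⟩ := h.cons
  obtain ⟨h2, h⟩ := h.cons
  obtain ⟨h3, -⟩ := h.cons
  have hs : lift N S U (N k) = (bif b then 1 else 0) :: encT l := by
    rw [lift_apply hN, hk]
    cases b <;> rfl
  have e1 := step_pop h1 reg (lift N S U) _ _ hs
  rw [lift_update hN] at e1
  have hr' := hr.update (r := 3) le_rfl (bif b then 1 else 0)
  cases b
  · refine ⟨2, by omega, _, hr', e1.trans (step_jlt_pos h2 _ _ ?_)⟩
    rw [update_self, hr'.r1]
    exact one_pos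
  · refine ⟨3, by omega, _, hr', (e1.trans (step_jlt_neg h2 _ _ ?_)).trans
      (step_jlt_pos h3 _ _ ?_)⟩
    · rw [update_self, hr'.r1]
      exact lt_irrefl _
    · rw [update_self, hr'.r2]
      exact one_lt_two

/-- Popping a real number. -/
theorem sim_real {P : List Instr} {N : K → ℕ} (hN : Injective N) {a : ℕ} {k : K} {Z F T : ℕ}
    (h : At P a [.pop (N k) 3 Z, .jlt 3 1 F, .jlt 3 2 T, .pop (N k) 4 0]) {reg : ℕ → ℝ}
    (hr : Good reg) (S : Mem K) (U : ℕ → List ℝ) (x : ℝ) (l : List Tok)
    (hk : S k = .real x :: l) : ∃ reg', Good reg' ∧ reg' 4 = x ∧ Reach P 4 ⟨a, reg, lift N S U⟩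
      ⟨a + 4, reg', lift N (update S k l) U⟩ := by
  obtain ⟨h1, h⟩ := h.cons
  obtain ⟨h2, h⟩ := h.cons
  obtain ⟨h3, h⟩ := h.cons
  obtain ⟨h4, -⟩ := h.cons
  have hs : lift N S U (N k) = 2 :: x :: encT l := by
    rw [lift_apply hN, hk]
    rfl
  have e1 := step_pop h1 reg (lift N S U) _ _ hs
  have hr' := hr.update (r := 3) le_rfl 2
  have e2 := step_jlt_neg h2 (update reg 3 2) (update (lift N S U) (N k) (x :: encT l)) (by
    rw [update_self, hr'.r1]; norm_num)
  have e3 := step_jlt_neg h3 (update reg 3 2) (update (lift N S U) (N k) (x :: encT l)) (by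
    rw [update_self, hr'.r2]; norm_num)
  have e4 := step_pop h4 (update reg 3 2) (update (lift N S U) (N k) (x :: encT l)) x (encT l)
    (update_self _ _ _)
  rw [update_idem, lift_update hN] at e4
  exact ⟨_, hr'.update (by omega) x, update_self _ _ _, ((e1.trans e2).trans e3).trans e4⟩

theorem sim_op {P : List Instr} {N : K → ℕ} (hN : Injective N) {a : ℕ} {k : K} (o : Op)
    (h : At P a (code N (.op o k) a)) {reg : ℕ → ℝ}
    (hr : Good reg) (S : Mem K) (U : ℕ → List ℝ) (x y : ℝ) (l : List Tok)
    (hk : S k = .real x :: .real y :: l) : ∃ n ≤ 8, ∃ reg', Good reg' ∧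
      Reach P n ⟨a, reg, lift N S U⟩
        ⟨a + len (Prog.op o k), reg', lift N (update S k (o.val x y :: l)) U⟩ := by
  obtain ⟨h0, hop⟩ := At.append (L := [.pop (N k) 3 0, .pop (N k) 4 0, .pop (N k) 3 0,
    .pop (N k) 5 0]) (M := opCode (N k) (a + 4) o) h
  obtain ⟨h1, h0⟩ := h0.cons
  obtain ⟨h2, h0⟩ := h0.cons
  obtain ⟨h3, h0⟩ := h0.cons
  obtain ⟨h4, -⟩ := h0.cons
  have hs : lift N S U (N k) = 2 :: x :: 2 :: y :: encT l := by
    rw [lift_apply hN, hk]
    rfl
  have e1 := step_pop h1 reg (lift N S U) _ _ hs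
  have e2 := step_pop h2 (update reg 3 2) _ x _ (update_self (N k) (x :: 2 :: y :: encT l)
    (lift N S U))
  rw [update_idem] at e2
  have e3 := step_pop h3 (update (update reg 3 2) 4 x) _ 2 _
    (update_self (N k) (2 :: y :: encT l) (lift N S U))
  rw [update_idem] at e3
  have e4 := step_pop h4 (update (update (update reg 3 2) 4 x) 3 2) _ y _
    (update_self (N k) (y :: encT l) (lift N S U))
  rw [update_idem] at e4
  have e := ((e1.trans e2).trans e3).trans e4
  set reg4 := update (update (update (update reg 3 2) 4 x) 3 2) 5 y with hreg4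
  have hr4 : Good reg4 := (((hr.update le_rfl 2).update (by omega) x).update le_rfl 2).update
    (by omega) y
  have v4 : reg4 4 = x := by
    rw [hreg4, update_of_ne (by omega), update_of_ne (by omega), update_self]
  have v5 : reg4 5 = y := by rw [hreg4, update_self]
  clear_value reg4
  -- storing a real result
  have store : ∀ (v : ℝ) (b : ℕ) (_ : At P b [.push (N k) 6, .push (N k) 2])
      (reg5 : ℕ → ℝ) (_ : Good reg5) (_ : reg5 6 = v),
      Reach P 2 ⟨b, reg5, update (lift N S U) (N k) (encT l)⟩
        ⟨b + 2, reg5, lift N (update S k (.real v :: l)) U⟩ := by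
    intro v b hb reg5 hr5 hv
    rw [lift_update hN]
    have := sim_pushReal hN hb hr5 (update S k l) U
    rw [hv, update_self, update_idem] at this
    exact this
  have storeBit : ∀ (v : Bool) (b : ℕ) (r : ℕ) (_ : P[b]? = some (.push (N k) r))
      (_ : reg4 r = bif v then 1 else 0),
      Reach P 1 ⟨b, reg4, update (lift N S U) (N k) (encT l)⟩
        ⟨b + 1, reg4, lift N (update S k (.bit v :: l)) U⟩ := by
    intro v b r hb hv
    have := step_push hb reg4 (update (lift N S U) (N k) (encT l))
    rw [update_self, update_idem, hv] at this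
    rw [← lift_update hN]
    cases v <;> exact this
  have e4' : a + 1 + 1 + 1 + 1 = a + 4 := rfl
  cases o
  case add =>
    obtain ⟨i1, i2⟩ := hop.cons
    have f1 : Reach P 1 ⟨a + 4, reg4, update (lift N S U) (N k) (encT l)⟩
        ⟨a + 4 + 1, update reg4 6 (reg4 4 + reg4 5), update (lift N S U) (N k) (encT l)⟩ := by
      apply Reach.one
      have : P[a + 4]? = some (.add 6 4 5) := i1
      simp only [step, this]
    have f2 := store (x + y) (a + 4 + 1) i2 (update reg4 6 (reg4 4 + reg4 5))
      (hr4.update (by omega) _) (by rw [update_self, v4, v5])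
    exact ⟨_, by omega, _, hr4.update (by omega) _, (e.trans f1).trans f2⟩
  case sub =>
    obtain ⟨i1, i2⟩ := hop.cons
    have f1 : Reach P 1 ⟨a + 4, reg4, update (lift N S U) (N k) (encT l)⟩
        ⟨a + 4 + 1, update reg4 6 (reg4 4 - reg4 5), update (lift N S U) (N k) (encT l)⟩ := by
      apply Reach.one
      have : P[a + 4]? = some (.sub 6 4 5) := i1
      simp only [step, this]
    have f2 := store (x - y) (a + 4 + 1) i2 (update reg4 6 (reg4 4 - reg4 5))
      (hr4.update (by omega) _) (by rw [update_self, v4, v5])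
    exact ⟨_, by omega, _, hr4.update (by omega) _, (e.trans f1).trans f2⟩
  case mul =>
    obtain ⟨i1, i2⟩ := hop.cons
    have f1 : Reach P 1 ⟨a + 4, reg4, update (lift N S U) (N k) (encT l)⟩
        ⟨a + 4 + 1, update reg4 6 (reg4 4 * reg4 5), update (lift N S U) (N k) (encT l)⟩ := by
      apply Reach.one
      have : P[a + 4]? = some (.mul 6 4 5) := i1
      simp only [step, this]
    have f2 := store (x * y) (a + 4 + 1) i2 (update reg4 6 (reg4 4 * reg4 5))
      (hr4.update (by omega) _) (by rw [update_self, v4, v5])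
    exact ⟨_, by omega, _, hr4.update (by omega) _, (e.trans f1).trans f2⟩
  case sqrt =>
    obtain ⟨i1, i2⟩ := hop.cons
    have f1 : Reach P 1 ⟨a + 4, reg4, update (lift N S U) (N k) (encT l)⟩
        ⟨a + 4 + 1, update reg4 6 (Real.sqrt (reg4 4)), update (lift N S U) (N k) (encT l)⟩ := by
      apply Reach.one
      have : P[a + 4]? = some (.sqrt 6 4) := i1
      simp only [step, this]
    have f2 := store (Real.sqrt x) (a + 4 + 1) i2 (update reg4 6 (Real.sqrt (reg4 4)))
      (hr4.update (by omega) _) (by rw [update_self, v4])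
    exact ⟨_, by omega, _, hr4.update (by omega) _, (e.trans f1).trans f2⟩
  case lt =>
    obtain ⟨i1, hop⟩ := hop.cons
    obtain ⟨i2, hop⟩ := hop.cons
    obtain ⟨i3, hop⟩ := hop.cons
    obtain ⟨i4, -⟩ := hop.cons
    by_cases hxy : x < y
    · have f1 := step_jlt_pos i1 reg4 (update (lift N S U) (N k) (encT l)) (by
        rw [v4, v5]; exact hxy)
      have f2 := storeBit true _ _ i4 (by rw [hr4.r1]; rfl)
      have ev : Op.val .lt x y = .bit true := by simp [Op.val, hxy]
      rw [ev]
      exact ⟨_, by omega, _, hr4, (e.trans f1).trans f2⟩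
    · have f1 := step_jlt_neg i1 reg4 (update (lift N S U) (N k) (encT l)) (by
        rw [v4, v5]; exact hxy)
      have f2 := storeBit false _ _ i2 (by rw [hr4.r0]; rfl)
      have f3 := step_goto i3 hr4 (lift N (update S k (.bit false :: l)) U)
      have ev : Op.val .lt x y = .bit false := by simp [Op.val, hxy]
      rw [ev]
      exact ⟨_, by omega, _, hr4, ((e.trans f1).trans f2).trans f3⟩
  case eq =>
    obtain ⟨i1, hop⟩ := hop.cons
    obtain ⟨i2, hop⟩ := hop.cons
    obtain ⟨i3, hop⟩ := hop.cons
    obtain ⟨i4, hop⟩ := hop.cons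
    obtain ⟨i5, -⟩ := hop.cons
    by_cases hxy : x < y
    · have f1 := step_jlt_pos i1 reg4 (update (lift N S U) (N k) (encT l)) (by
        rw [v4, v5]; exact hxy)
      have f2 := storeBit false _ _ i5 (by rw [hr4.r0]; rfl)
      have ev : Op.val .eq x y = .bit false := by simp [Op.val, hxy.ne]
      rw [ev]
      exact ⟨_, by omega, _, hr4, (e.trans f1).trans f2⟩
    · have f1 := step_jlt_neg i1 reg4 (update (lift N S U) (N k) (encT l)) (by
        rw [v4, v5]; exact hxy)
      by_cases hyx : y < x
      · have f2 := step_jlt_pos i2 reg4 (update (lift N S U) (N k) (encT l)) (by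
          rw [v4, v5]; exact hyx)
        have f3 := storeBit false _ _ i5 (by rw [hr4.r0]; rfl)
        have ev : Op.val .eq x y = .bit false := by simp [Op.val, hyx.ne']
        rw [ev]
        exact ⟨_, by omega, _, hr4, ((e.trans f1).trans f2).trans f3⟩
      · have f2 := step_jlt_neg i2 reg4 (update (lift N S U) (N k) (encT l)) (by
          rw [v4, v5]; exact hyx)
        have f3 := storeBit true _ _ i3 (by rw [hr4.r1]; rfl)
        have f4 := step_goto i4 hr4 (lift N (update S k (.bit true :: l)) U)
        have ev : Op.val .eq x y = .bit true := by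
          simp [Op.val, le_antisymm (not_lt.1 hyx) (not_lt.1 hxy)]
        rw [ev]
        exact ⟨_, by omega, _, hr4, (((e.trans f1).trans f2).trans f3).trans f4⟩

end sim

end Pool.Agent.RRAM
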