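import Pool.Agent.Work.RRAM.Prog

/-!
# The real RAM simulates structured programs
-/

set_option autoImplicit false

namespace Pool.Agent.RRAM

open Function

section sim

variable {K : Type} [DecidableEq K]

theorem At.cast {P : List Instr} {a b : ℕ} {L : List Instr} (h : At P a L) (e : a = b) :
    At P b L := e ▸ h

theorem At.last {P : List Instr} {a : ℕ} {L : List Instr} {x : Instr} (h : At P a (L ++ [x])) :
    P[a + L.length]? = some x := h.append.2.cons.1

omit [DecidableEq K] in
/-- The addresses of the parts of a branching instruction. -/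
theorem branch_at {P : List Instr} {N : K → ℕ} {a : ℕ} {k : K} {ks : List K} {Z E F T : ℕ}
    {pf pt pr : Prog K} {R : List Instr}
    (hF : F = a + 4 + 2 * ks.length + (len pr + 1)) (hT : T = F + (len pf + 1))
    (h : At P a ([.pop (N k) 3 Z, .jlt 3 1 F, .jlt 3 2 T, .pop (N k) 4 0] ++ (pushes N ks ++
        ((code N pr (a + 4 + 2 * ks.length) ++ [goto E]) ++ ((code N pf F ++ [goto E]) ++
          ((code N pt T ++ [goto E]) ++ R)))))) :
    At P a [.pop (N k) 3 Z, .jlt 3 1 F, .jlt 3 2 T, .pop (N k) 4 0] ∧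
    At P (a + 4) (pushes N ks) ∧
    At P (a + 4 + 2 * ks.length) (code N pr (a + 4 + 2 * ks.length)) ∧
    P[a + 4 + 2 * ks.length + len pr]? = some (goto E) ∧
    At P F (code N pf F) ∧ P[F + len pf]? = some (goto E) ∧
    At P T (code N pt T) ∧ P[T + len pt]? = some (goto E) ∧
    At P (T + (len pt + 1)) R := by
  obtain ⟨h1, h⟩ := h.append
  obtain ⟨h2, h⟩ := h.append
  obtain ⟨h3, h⟩ := h.append
  obtain ⟨h4, h⟩ := h.append
  obtain ⟨h5, h6⟩ := h.append
  have e1 : a + [Instr.pop (N k) 3 Z, .jlt 3 1 F, .jlt 3 2 T, .pop (N k) 4 0].length = a + 4 := rfl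
  rw [e1] at h2 h3 h4 h5 h6
  rw [length_pushes] at h3 h4 h5 h6
  rw [List.length_append, length_code] at h4 h5 h6
  rw [List.length_append, length_code] at h5 h6
  rw [List.length_append, length_code] at h6
  have e2 : ∀ x : Instr, [x].length = 1 := fun _ => rfl
  rw [e2] at h4 h5 h6
  rw [← hF] at h4 h5 h6
  rw [← hT] at h5 h6
  have g3 := h3.last
  have g4 := h4.last
  have g5 := h5.last
  rw [length_code] at g3 g4 g5
  exact ⟨h1, h2, h3.append.1, g3, h4.append.1, g4, h5.append.1, g5, h6⟩

theorem sim {P : List Instr} {N : K → ℕ} (hN : Injective N) {p : Prog K} {S S' : Mem K} {t : ℕ}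
    (h : Exec p S S' t) : ∀ (a : ℕ), At P a (code N p a) → ∀ (reg : ℕ → ℝ), Good reg →
    ∀ U : ℕ → List ℝ, ∃ n ≤ 8 * t, ∃ reg', Good reg' ∧
      Reach P n ⟨a, reg, lift N S U⟩ ⟨a + len p, reg', lift N S' U⟩ := by
  induction h with
  | skip S =>
    intro a _ reg hr U
    exact ⟨0, by omega, reg, hr, Reach.refl _ _⟩
  | push k b S =>
    intro a h reg hr U
    obtain ⟨h1, -⟩ := At.cons (L := []) h
    refine ⟨1, by omega, reg, hr, ?_⟩
    have := step_push h1 reg (lift N S U)
    rw [lift_apply hN] at this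
    show Reach P 1 _ ⟨a + 1, _, _⟩
    rw [← lift_update hN]
    cases b
    · have e : reg (bif false then 1 else 0) = 0 := hr.r0
      rw [e] at this
      exact this
    · have e : reg (bif true then 1 else 0) = 1 := hr.r1
      rw [e] at this
      exact this
  | one k S =>
    intro a h reg hr U
    refine ⟨2, by omega, reg, hr, ?_⟩
    have := sim_pushReal hN h hr S U
    rw [hr.r1] at this
    exact this
  | op o k S x y l hk =>
    intro a h reg hr U
    obtain ⟨n, hn, reg', hr', e⟩ := sim_op hN o h hr S U x y l hk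
    exact ⟨n, by omega, reg', hr', e⟩
  | @seq p q S S' S'' t t' _ _ ih1 ih2 =>
    intro a h reg hr U
    obtain ⟨h1, h2⟩ := At.append (L := code N p a) (M := code N q (a + len p)) h
    rw [length_code] at h2
    obtain ⟨n1, hn1, reg1, hr1, e1⟩ := ih1 a h1 reg hr U
    obtain ⟨n2, hn2, reg2, hr2, e2⟩ := ih2 (a + len p) h2 reg1 hr1 U
    refine ⟨n1 + n2, by omega, reg2, hr2, ?_⟩
    have := e1.trans e2
    rw [add_assoc] at this
    exact this
  | @case_nil k ks pn pf pt pr S S' t hk _ ih =>
    intro a h reg hr U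
    obtain ⟨h1, -, -, -, -, -, -, -, h9⟩ := branch_at (N := N) (R := code N pn _) rfl rfl h
    obtain ⟨n, hn, reg', hr', e⟩ := ih _ h9 reg hr U
    obtain ⟨h1, -⟩ := h1.cons
    have e1 := step_pop_nil h1 reg (lift N S U) (by rw [lift_apply hN, hk]; rfl)
    refine ⟨1 + n, by omega, reg', hr', ?_⟩
    have := e1.trans e
    have e3 : a + len (Prog.case k ks pn pf pt pr) = a + 4 + 2 * ks.length + (len pr + 1) +
      (len pf + 1) + (len pt + 1) + len pn := by simp only [len]; omega
    rw [e3]
    exact this
  | @case_bit k ks pn pf pt pr S S' t b l hk _ ih =>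
    intro a h reg hr U
    obtain ⟨h1, -, -, -, h5, h6, h7, h8, -⟩ := branch_at (N := N) (R := code N pn _) rfl rfl h
    obtain ⟨n1, hn1, reg1, hr1, e1⟩ := sim_bit hN h1 hr S U b l hk
    have e3 : a + len (Prog.case k ks pn pf pt pr) = a + 4 + 2 * ks.length + (len pr + 1) +
      (len pf + 1) + (len pt + 1) + len pn := by simp only [len]; omega
    rw [e3]
    cases b
    · obtain ⟨n2, hn2, reg2, hr2, e2⟩ := ih _ h5 reg1 hr1 U
      exact ⟨n1 + n2 + 1, by omega, reg2, hr2, (e1.trans e2).trans (step_goto h6 hr2 _)⟩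
    · obtain ⟨n2, hn2, reg2, hr2, e2⟩ := ih _ h7 reg1 hr1 U
      exact ⟨n1 + n2 + 1, by omega, reg2, hr2, (e1.trans e2).trans (step_goto h8 hr2 _)⟩
  | @case_real k ks pn pf pt pr S S' t x l hk _ ih =>
    intro a h reg hr U
    obtain ⟨h1, h2, h3, h4, -⟩ := branch_at (N := N) (R := code N pn _) rfl rfl h
    obtain ⟨reg1, hr1, hx, e1⟩ := sim_real hN h1 hr S U x l hk
    have e2 := sim_pushes hN h2 hr1 hx (update S k l) U
    obtain ⟨n3, hn3, reg3, hr3, e3⟩ := ih _ h3 reg1 hr1 U
    have e5 : a + len (Prog.case k ks pn pf pt pr) = a + 4 + 2 * ks.length + (len pr + 1) +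
      (len pf + 1) + (len pt + 1) + len pn := by simp only [len]; omega
    rw [e5]
    exact ⟨4 + 2 * ks.length + n3 + 1, by omega, reg3, hr3,
      ((e1.trans e2).trans e3).trans (step_goto h4 hr3 _)⟩
  | @loop_nil k ks pf pt pr S hk =>
    intro a h reg hr U
    have h' : At P a ([.pop (N k) 3 (a + 4 + 2 * ks.length + (len pr + 1) + (len pf + 1) +
        (len pt + 1)), .jlt 3 1 (a + 4 + 2 * ks.length + (len pr + 1)),
        .jlt 3 2 (a + 4 + 2 * ks.length + (len pr + 1) + (len pf + 1)), .pop (N k) 4 0] ++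
        (pushes N ks ++ ((code N pr (a + 4 + 2 * ks.length) ++ [goto a]) ++
          ((code N pf (a + 4 + 2 * ks.length + (len pr + 1)) ++ [goto a]) ++
          ((code N pt (a + 4 + 2 * ks.length + (len pr + 1) + (len pf + 1)) ++ [goto a]) ++
            []))))) := by
      rw [List.append_nil]; exact h
    obtain ⟨h1, -⟩ := branch_at (N := N) (R := []) rfl rfl h'
    obtain ⟨h1, -⟩ := h1.cons
    have e1 := step_pop_nil h1 reg (lift N S U) (by rw [lift_apply hN, hk]; rfl)
    refine ⟨1, by omega, reg, hr, ?_⟩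
    have e3 : a + len (Prog.loop k ks pf pt pr) = a + 4 + 2 * ks.length + (len pr + 1) +
      (len pf + 1) + (len pt + 1) := by simp only [len]; omega
    rw [e3]
    exact e1
  | @loop_bit k ks pf pt pr S S' S'' t t' b l hk _ _ ih1 ih2 =>
    intro a h reg hr U
    have h' : At P a ([.pop (N k) 3 (a + 4 + 2 * ks.length + (len pr + 1) + (len pf + 1) +
        (len pt + 1)), .jlt 3 1 (a + 4 + 2 * ks.length + (len pr + 1)),
        .jlt 3 2 (a + 4 + 2 * ks.length + (len pr + 1) + (len pf + 1)), .pop (N k) 4 0] ++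
        (pushes N ks ++ ((code N pr (a + 4 + 2 * ks.length) ++ [goto a]) ++
          ((code N pf (a + 4 + 2 * ks.length + (len pr + 1)) ++ [goto a]) ++
          ((code N pt (a + 4 + 2 * ks.length + (len pr + 1) + (len pf + 1)) ++ [goto a]) ++
            []))))) := by
      rw [List.append_nil]; exact h
    obtain ⟨h1, -, -, -, h5, h6, h7, h8, -⟩ := branch_at (N := N) (R := []) rfl rfl h'
    obtain ⟨n1, hn1, reg1, hr1, e1⟩ := sim_bit hN h1 hr S U b l hk
    cases b
    · obtain ⟨n2, hn2, reg2, hr2, e2⟩ := ih1 _ h5 reg1 hr1 U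
      obtain ⟨n3, hn3, reg3, hr3, e3⟩ := ih2 a h reg2 hr2 U
      exact ⟨n1 + n2 + 1 + n3, by omega, reg3, hr3,
        ((e1.trans e2).trans (step_goto h6 hr2 _)).trans e3⟩
    · obtain ⟨n2, hn2, reg2, hr2, e2⟩ := ih1 _ h7 reg1 hr1 U
      obtain ⟨n3, hn3, reg3, hr3, e3⟩ := ih2 a h reg2 hr2 U
      exact ⟨n1 + n2 + 1 + n3, by omega, reg3, hr3,
        ((e1.trans e2).trans (step_goto h8 hr2 _)).trans e3⟩
  | @loop_real k ks pf pt pr S S' S'' t t' x l hk _ _ ih1 ih2 =>
    intro a h reg hr U
    have h' : At P a ([.pop (N k) 3 (a + 4 + 2 * ks.length + (len pr + 1) + (len pf + 1) +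
        (len pt + 1)), .jlt 3 1 (a + 4 + 2 * ks.length + (len pr + 1)),
        .jlt 3 2 (a + 4 + 2 * ks.length + (len pr + 1) + (len pf + 1)), .pop (N k) 4 0] ++
        (pushes N ks ++ ((code N pr (a + 4 + 2 * ks.length) ++ [goto a]) ++
          ((code N pf (a + 4 + 2 * ks.length + (len pr + 1)) ++ [goto a]) ++
          ((code N pt (a + 4 + 2 * ks.length + (len pr + 1) + (len pf + 1)) ++ [goto a]) ++
            []))))) := by
      rw [List.append_nil]; exact h
    obtain ⟨h1, h2, h3, h4, -⟩ := branch_at (N := N) (R := []) rfl rfl h'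
    obtain ⟨reg1, hr1, hx, e1⟩ := sim_real hN h1 hr S U x l hk
    have e2 := sim_pushes hN h2 hr1 hx (update S k l) U
    obtain ⟨n3, hn3, reg3, hr3, e3⟩ := ih1 _ h3 reg1 hr1 U
    obtain ⟨n4, hn4, reg4, hr4, e4⟩ := ih2 a h reg3 hr3 U
    exact ⟨4 + 2 * ks.length + n3 + 1 + n4, by omega, reg4, hr4,
      (((e1.trans e2).trans e3).trans (step_goto h4 hr3 _)).trans e4⟩

end sim

/-! ### Loading the input and reading the answer -/

/-- The memory with contents `x` on stack `i` and all other stacks empty. -/
def single {K : Type} [DecidableEq K] (i : K) (x : List Tok) : Mem K :=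
  update (fun _ => []) i x

/-- The tokens of a list of reals. -/
def inTok : List ℝ → List Tok
  | [] => [.bit false]
  | x :: l => .bit true :: .real x :: inTok l

/-- The whole program. -/
def whole {K : Type} (N : K → ℕ) (p : Prog K) (i o : K) : List Instr :=
  [.one 1, .add 2 1 1, .pop 0 3 5, .push 1 3, goto 2, .push (N i) 0, .pop 1 3 11,
    .push (N i) 3, .push (N i) 2, .push (N i) 1, goto 6] ++ (code N p 11 ++
    [.pop (N o) 3 0, .jlt 3 1 (11 + len p + 3), .halt true, .halt false])

theorem whole_get {K : Type} (N : K → ℕ) (p : Prog K) (i o : K) (m : ℕ) (hm : m < 11) :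
    (whole N p i o)[m]? = [Instr.one 1, .add 2 1 1, .pop 0 3 5, .push 1 3, goto 2,
      .push (N i) 0, .pop 1 3 11, .push (N i) 3, .push (N i) 2, .push (N i) 1, goto 6][m]? :=
  List.getElem?_append_left hm

/-- First loading loop: reverse the input. -/
theorem load1 {K : Type} (N : K → ℕ) (p : Prog K) (i o : K) : ∀ (x y : List ℝ) (reg : ℕ → ℝ)
    (_ : Good reg) (U : ℕ → List ℝ) (_ : U 0 = x) (_ : U 1 = y), ∃ n ≤ 3 * x.length + 1, ∃ reg',
      Good reg' ∧ Reach (whole N p i o) n ⟨2, reg, U⟩
        ⟨5, reg', update (update U 0 []) 1 (x.reverse ++ y)⟩ := by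
  intro x
  induction x with
  | nil =>
    intro y reg hr U h0 h1
    have g1 : (whole N p i o)[2]? = some (.pop 0 3 5) := whole_get N p i o 2 (by omega)
    refine ⟨1, by simp, reg, hr, ?_⟩
    have e := step_pop_nil g1 reg U h0
    have e2 : update (update U 0 []) 1 (([] : List ℝ).reverse ++ y) = U := by
      rw [List.reverse_nil, List.nil_append, ← h1, ← h0, update_eq_self, update_eq_self]
    rw [e2]
    exact e
  | cons a x ih =>
    intro y reg hr U h0 h1
    have g1 : (whole N p i o)[2]? = some (.pop 0 3 5) := whole_get N p i o 2 (by omega)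
    have g2 : (whole N p i o)[3]? = some (.push 1 3) := whole_get N p i o 3 (by omega)
    have g3 : (whole N p i o)[4]? = some (goto 2) := whole_get N p i o 4 (by omega)
    have e1 := step_pop g1 reg U a x h0
    have e2 := step_push g2 (update reg 3 a) (update U 0 x)
    rw [update_self, update_of_ne (by omega : (1 : ℕ) ≠ 0), h1] at e2
    have hr' := hr.update (r := 3) le_rfl a
    have e3 := step_goto g3 hr' (update (update U 0 x) 1 (a :: y))
    obtain ⟨n, hn, reg', hr'', e4⟩ := ih (a :: y) (update reg 3 a) hr'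
      (update (update U 0 x) 1 (a :: y)) (by
        rw [update_of_ne (by omega), update_self]) (update_self _ _ _)
    refine ⟨1 + 1 + 1 + n, by simp; omega, reg', hr'', ?_⟩
    have e5 : update (update (update (update U 0 x) 1 (a :: y)) 0 []) 1 (x.reverse ++ (a :: y)) =
        update (update U 0 []) 1 ((a :: x).reverse ++ y) := by
      funext m
      by_cases h1 : m = 1
      · subst h1; simp
      · by_cases h0 : m = 0
        · subst h0; simp
        · simp [update_of_ne h1, update_of_ne h0]
    rw [e5] at e4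
    exact ((e1.trans e2).trans e3).trans e4

/-- Second loading loop: build the token stack. -/
theorem load2 {K : Type} [DecidableEq K] (N : K → ℕ) (hN : Injective N) (hN2 : ∀ k, 2 ≤ N k)
    (p : Prog K) (i o : K) : ∀ (x l : List ℝ) (reg : ℕ → ℝ)
    (_ : Good reg) (S : Mem K) (U : ℕ → List ℝ) (_ : U 1 = x) (_ : S i = inTok l),
    ∃ n ≤ 5 * x.length + 1, ∃ reg', Good reg' ∧ Reach (whole N p i o) n ⟨6, reg, lift N S U⟩
        ⟨11, reg', lift N (update S i (inTok (x.reverse ++ l))) (update U 1 [])⟩ := by
  intro x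
  induction x with
  | nil =>
    intro l reg hr S U h1 hS
    have g1 : (whole N p i o)[6]? = some (.pop 1 3 11) := whole_get N p i o 6 (by omega)
    refine ⟨1, by simp, reg, hr, ?_⟩
    have hU : lift N S U 1 = [] := by
      unfold lift
      rw [dif_neg]
      · exact h1
      · rintro ⟨k, hk⟩; have := hN2 k; omega
    have e := step_pop_nil g1 reg (lift N S U) hU
    have e2 : update S i (inTok (([] : List ℝ).reverse ++ l)) = S := by
      rw [List.reverse_nil, List.nil_append, ← hS, update_eq_self]
    have e3 : update U 1 [] = U := by rw [← h1, update_eq_self]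
    rw [e2, e3]
    exact e
  | cons a x ih =>
    intro l reg hr S U h1 hS
    have g1 : (whole N p i o)[6]? = some (.pop 1 3 11) := whole_get N p i o 6 (by omega)
    have g2 : (whole N p i o)[7]? = some (.push (N i) 3) := whole_get N p i o 7 (by omega)
    have g3 : (whole N p i o)[8]? = some (.push (N i) 2) := whole_get N p i o 8 (by omega)
    have g4 : (whole N p i o)[9]? = some (.push (N i) 1) := whole_get N p i o 9 (by omega)
    have g5 : (whole N p i o)[10]? = some (goto 6) := whole_get N p i o 10 (by omega)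
    have hU : lift N S U 1 = a :: x := by
      unfold lift
      rw [dif_neg]
      · exact h1
      · rintro ⟨k, hk⟩; have := hN2 k; omega
    have hupd : update (lift N S U) 1 x = lift N S (update U 1 x) := by
      funext m
      by_cases hm : m = 1
      · subst hm
        rw [update_self]
        unfold lift
        rw [dif_neg]
        · rw [update_self]
        · rintro ⟨k, hk⟩; have := hN2 k; omega
      · rw [update_of_ne hm]
        unfold lift
        rw [update_of_ne hm]
    have e1 := step_pop g1 reg (lift N S U) a x hU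
    rw [hupd] at e1
    have hr' := hr.update (r := 3) le_rfl a
    have e2 := step_push g2 (update reg 3 a) (lift N S (update U 1 x))
    rw [update_self] at e2
    have e3 := step_push g3 (update reg 3 a) (update (lift N S (update U 1 x)) (N i)
      (a :: lift N S (update U 1 x) (N i)))
    rw [update_self, update_idem, hr'.r2] at e3
    have e4 := step_push g4 (update reg 3 a) (update (lift N S (update U 1 x)) (N i)
      (2 :: a :: lift N S (update U 1 x) (N i)))
    rw [update_self, update_idem, hr'.r1, lift_apply hN, hS] at e4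
    rw [lift_apply hN, hS] at e2 e3
    have e5 : update (lift N S (update U 1 x)) (N i) (1 :: 2 :: a :: encT (inTok l)) =
        lift N (update S i (inTok (a :: l))) (update U 1 x) := by
      rw [← lift_update hN]; rfl
    rw [e5] at e4
    have e6 := step_goto g5 hr' (lift N (update S i (inTok (a :: l))) (update U 1 x))
    obtain ⟨n, hn, reg', hr'', e7⟩ := ih (a :: l) (update reg 3 a) hr'
      (update S i (inTok (a :: l))) (update U 1 x) (update_self _ _ _) (update_self _ _ _)
    refine ⟨1 + 1 + 1 + 1 + 1 + n, by simp; omega, reg', hr'', ?_⟩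
    rw [update_idem, update_idem] at e7
    have e8 : x.reverse ++ (a :: l) = (a :: x).reverse ++ l := by simp
    rw [e8] at e7
    exact ((((e1.trans e2).trans e3).trans e4).trans e6).trans e7

/-- The tokens of a truth value. -/
def boolTok : Bool → List Tok
  | true => [.bit true, .bit false, .bit false]
  | false => [.bit false]

/-- **The real RAM runs structured programs.** -/
theorem whole_answers {K : Type} [DecidableEq K] (N : K → ℕ) (hN : Injective N)
    (hN2 : ∀ k, 2 ≤ N k) (p : Prog K) (i o : K) (x : List ℝ) (b : Bool) (t : ℕ)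
    (h : Exec p (single i (inTok x)) (single o (boolTok b)) t) :
    Answers (whole N p i o) x (8 * x.length + 8 * t + 8) b := by
  have g0 : (whole N p i o)[0]? = some (.one 1) := whole_get N p i o 0 (by omega)
  have g1 : (whole N p i o)[1]? = some (.add 2 1 1) := whole_get N p i o 1 (by omega)
  have g5 : (whole N p i o)[5]? = some (.push (N i) 0) := whole_get N p i o 5 (by omega)
  -- initial registers
  let r1 : ℕ → ℝ := update (fun _ => (0 : ℝ)) 1 1
  let r2 : ℕ → ℝ := update r1 2 (r1 1 + r1 1)
  have hr2 : Good r2 := by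
    refine ⟨?_, ?_, ?_⟩
    · simp [r2, r1]
    · simp [r2, r1]
    · simp only [r2, r1, update_self]; norm_num
  let U0 : ℕ → List ℝ := fun s => if s = 0 then x else []
  have e0 : Reach (whole N p i o) 1 (init x) ⟨1, r1, U0⟩ := by
    apply Reach.one
    have : (whole N p i o)[(init x).pc]? = some (.one 1) := g0
    simp only [step, this]
    rfl
  have e1 : Reach (whole N p i o) 1 ⟨1, r1, U0⟩ ⟨2, r2, U0⟩ := by
    apply Reach.one
    simp only [step, g1]
    rfl
  obtain ⟨n2, hn2, r3, hr3, e2⟩ := load1 N p i o x [] r2 hr2 U0 rfl rfl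
  rw [List.append_nil] at e2
  have e3 := step_push g5 r3 (update (update U0 0 []) 1 x.reverse)
  have hz : update (update U0 0 []) 1 x.reverse = update (fun _ => []) 1 x.reverse := by
    funext m
    by_cases h1 : m = 1
    · subst h1; simp
    · rw [update_of_ne h1, update_of_ne h1]
      by_cases h0 : m = 0
      · subst h0; simp
      · rw [update_of_ne h0]; simp [U0, h0]
  have hl : update (fun _ : ℕ => ([] : List ℝ)) 1 x.reverse =
      lift N (fun _ => []) (update (fun _ : ℕ => ([] : List ℝ)) 1 x.reverse) := by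
    funext m
    unfold lift
    by_cases hm : ∃ k, N k = m
    · rw [dif_pos hm]
      obtain ⟨k, rfl⟩ := hm
      have := hN2 k
      rw [update_of_ne (by omega)]
      rfl
    · rw [dif_neg hm]
  rw [hz, hl, lift_apply hN, hr3.r0] at e3
  rw [hz, hl] at e2
  have e3' : update (lift N (fun _ => ([] : List Tok)) (update (fun _ : ℕ => ([] : List ℝ)) 1
      x.reverse)) (N i) ((0 : ℝ) :: encT []) = lift N (single i (inTok []))
        (update (fun _ : ℕ => ([] : List ℝ)) 1 x.reverse) := by
    unfold single
    rw [← lift_update hN]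
    rfl
  rw [e3'] at e3
  obtain ⟨n4, hn4, r4, hr4, e4⟩ := load2 N hN hN2 p i o x.reverse [] r3 hr3
    (single i (inTok [])) (update (fun _ : ℕ => ([] : List ℝ)) 1 x.reverse)
    (update_self _ _ _) (update_self _ _ _)
  have e4' : update (single i (inTok [])) i (inTok (x.reverse.reverse ++ [])) =
      single i (inTok x) := by
    unfold single
    rw [update_idem, List.reverse_reverse, List.append_nil]
  rw [e4', update_idem] at e4
  have hat : At (whole N p i o) 11 (code N p 11 ++
    [.pop (N o) 3 0, .jlt 3 1 (11 + len p + 3), .halt true, .halt false]) := At.self _ _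
  obtain ⟨hc, hd⟩ := hat.append
  rw [length_code] at hd
  obtain ⟨n5, hn5, r5, hr5, e5⟩ := sim hN h 11 hc r4 hr4 (update (fun _ : ℕ => ([] : List ℝ)) 1 [])
  obtain ⟨d0, hd⟩ := hd.cons
  obtain ⟨d1, hd⟩ := hd.cons
  obtain ⟨d2, hd⟩ := hd.cons
  obtain ⟨d3, -⟩ := hd.cons
  have hst : lift N (single o (boolTok b)) (update (fun _ : ℕ => ([] : List ℝ)) 1 []) (N o) =
      (bif b then 1 else 0) :: encT (boolTok b).tail := by
    rw [lift_apply hN]
    unfold single
    rw [update_self]
    cases b <;> rfl
  have e6 := step_pop d0 r5 _ _ _ hst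
  have hr6 := hr5.update (r := 3) le_rfl (bif b then 1 else 0)
  rw [List.length_reverse] at hn4
  have etot := ((((e0.trans e1).trans e2).trans e3).trans e4).trans (e5.trans e6)
  cases b with
  | true =>
    have e7 := etot.trans (step_jlt_neg d1 _ _ (by
      rw [update_self, hr6.r1]; exact lt_irrefl _))
    refine ⟨1 + 1 + n2 + 1 + n4 + (n5 + 1) + 1, by omega, ?_⟩
    unfold Reach at e7
    rw [e7]
    exact d2
  | false =>
    have e7 := etot.trans (step_jlt_pos d1 _ _ (by
      rw [update_self, hr6.r1]; exact one_pos))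
    refine ⟨1 + 1 + n2 + 1 + n4 + (n5 + 1) + 1, by omega, ?_⟩
    unfold Reach at e7
    rw [e7]
    exact d3

end Pool.Agent.RRAM
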